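import Pool.Agent.Work.MP_9d1ffa_al.Px.Df

/-! Hierarchies of actions on CAT(0) complexes over a given class of groups, linear groups and
two-dimensional Artin groups. -/

namespace Pool.Agent.Work.MP_9d1ffa_al

open Subgroup CoxeterSystem

/-- The smallest class of groups that contains the class `P`, the groups that are linear over a
commutative ring modulo a solvable normal subgroup and the finitely generated Artin groups of
dimension at most two, and that contains `G` if `G` acts by simplicial isometries on a CAT(0)
simplicial complex with finitely many shapes such that the point stabilisers are in the class and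
the pointwise stabilisers of the sets of diameter at least `D` lie in a set `C` of subgroups in which
chains have bounded length and whose cyclic extensions inside `G` are in the class. -/
inductive He (P : (G : Type) → [Group G] → Prop) : (G : Type) → [Group G] → Prop
  | base (G : Type) [Group G] (h : P G) : He P G
  | lin (G : Type) [Group G] (R : Type) [CommRing R] (n : ℕ) (ρ : G →* GL (Fin n) R)
      (h : Group.IsSolvable ρ.ker) : He P G
  | art (S : Type) [Finite S] (M : CoxeterMatrix S)
      (h : ∀ s t u, s ≠ t → t ≠ u → u ≠ s → M s t ≠ 0 → M t u ≠ 0 → M u s ≠ 0 →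
        (1 / M s t + 1 / M t u + 1 / M u s : ℚ) ≤ 1) :
      He P (PresentedGroup {r : FreeGroup S | ∃ s t,
        r = ((braidWord M s t).map FreeGroup.of).prod * ((braidWord M t s).map FreeGroup.of).prod⁻¹})
  | cat (G : Type) [Group G] (V X : Type) [MetricSpace X] [Nonempty X] [MulAction G V]
      [MulAction G X] (F : Set (Finset V)) (q : V → V → ℝ) (n : ℕ) (co : X → V → ℝ)
      (cx : Px.Cx F q n co) (iso : ∀ (g : G) (x y : X), dist (g • x) (g • y) = dist x y)
      (eqv : ∀ (g : G) x v, co (g • x) (g • v) = co x v) (C : Set (Subgroup G)) (D m : ℕ)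
      (far : ∀ T : Set X, ∀ x ∈ T, ∀ y ∈ T, D ≤ dist x y → fixingSubgroup G T ∈ C)
      (ht : ∀ B ⊆ C, IsChain (· ≤ ·) B → B.encard ≤ m)
      (st : ∀ x : X, He P (MulAction.stabilizer G x))
      (ln : ∀ H ∈ C, ∀ a ∈ normalizer (H : Set G), He P ↥(zpowers a ⊔ H)) : He P G

end Pool.Agent.Work.MP_9d1ffa_al
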