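import Pool.Agent.Work.MP_9d1ffa_al.Hx.Gam

/-! Filling cubes radially: continuity and control. -/

namespace Pool.Agent.Work.MP_9d1ffa_al.Hx

open unitInterval Set Filter Topology

variable {G X : Type}

/-- a word with parameters that depend on a point -/
def evl {Y : Type} (L : List (G × (Y → I))) (y : Y) : List (G × I) := L.map fun p => (p.1, p.2 y)

theorem rad_cont {Y : Type} [TopologicalSpace Y] {L : List (G × (Y → I))}
    (h : ∀ p ∈ L, Continuous p.2) : Continuous fun y => rad (evl L y) := by
  induction L with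
  | nil => exact continuous_const
  | cons p L ih =>
    have a := h p List.mem_cons_self
    exact Continuous.max (f := fun y => |2 * (p.2 y : ℝ) - 1|) (by fun_prop)
      (ih fun q hq => h q (List.mem_cons_of_mem _ hq))

theorem pr_evl [Group G] {Y : Type} (L : List (G × (Y → I))) (y : Y) (g : G) :
    pr (evl L y) g = (L.map Prod.fst).prod * g := by
  simp [pr, evl, Function.comp_def]

variable [Group G] {seg : X → X → I → X} {φ : G → X → X}

/-- continuity for words of length at most `n` -/
def Ctn [TopologicalSpace X] (seg : X → X → I → X) (φ : G → X → X) (n : ℕ) : Prop :=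
  ∀ (Y : Type) [TopologicalSpace Y] (L : List (G × (Y → I))), L.length ≤ n →
    (∀ p ∈ L, Continuous p.2) → ∀ (g : G) (x : Y → X), Continuous x →
      Continuous fun y => Gam seg φ (evl L y) g (x y)

theorem Ctn.face [TopologicalSpace X] {n : ℕ} (ih : Ctn seg φ n) {Y : Type} [TopologicalSpace Y]
    {L : List (G × (Y → I))} (hL : L.length ≤ n + 1) (hc : ∀ p ∈ L, Continuous p.2) (g : G)
    {x : Y → X} (hx : Continuous x) {p : G × (Y → I)} (hp : p ∈ L) {e : I} (he : e = 0 ∨ e = 1)
    (h : ∀ y, p.2 y = e) : Continuous fun y => Gam seg φ (evl L y) g (x y) := by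
  obtain ⟨a, b, rfl⟩ := List.append_of_mem hp
  simp only [List.length_append, List.length_cons] at hL
  have ha : ∀ q ∈ a, Continuous q.2 := fun q hq => hc q (by simp [hq])
  have hb : ∀ q ∈ b, Continuous q.2 := fun q hq => hc q (by simp [hq])
  have k : ∀ y, evl (a ++ p :: b) y = evl a y ++ (p.1, e) :: evl b y := fun y => by simp [evl, h]
  simp only [k]
  rcases he with rfl | rfl
  · simp only [Gam_cut]
    exact ih Y a (by omega) ha _ _ (ih Y b (by omega) hb g x hx)
  cases b with
  | nil =>
    simp only [evl, List.map_nil, Gam_mergeLast]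
    exact ih Y a (by omega) ha _ x hx
  | cons q b =>
    have k2 := ih Y (a ++ (p.1 * q.1, q.2) :: b) (by simp at hL ⊢; omega) (fun r hr => by
      rcases List.mem_append.1 hr with hr | hr
      · exact ha r hr
      · rcases List.mem_cons.1 hr with rfl | hr
        exacts [hb q List.mem_cons_self, hb r (List.mem_cons_of_mem _ hr)]) g x hx
    simp only [evl, List.map_cons, List.map_append, Gam_merge] at k2 ⊢
    exact k2

theorem ctn [MetricSpace X] [CompactSpace X]
    (hs : Continuous fun p : X × X × I => seg p.1 p.2.1 p.2.2) (h0 : ∀ x y, seg x y 0 = x)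
    (h1 : ∀ x y, seg x y 1 = y) (hφ : ∀ g, Continuous (φ g)) (hφ1 : ∀ x, φ 1 x = x) (n : ℕ) :
    Ctn seg φ n := by
  induction n with
  | zero =>
    intro Y _ L hL _ g x hx
    obtain rfl := List.length_eq_zero_iff.1 (Nat.le_zero.1 hL)
    simp only [evl, List.map_nil, Gam_nil hφ1]
    exact (hφ g).comp hx
  | succ n ih =>
    intro Y _ L hL hc g x hx
    by_cases hn : L = []
    · exact ih Y L (by simp [hn]) hc g x hx
    rcases unit_cases hn g with ⟨hg, hu⟩ | ⟨a, h, t, rfl, rfl⟩ | ⟨t, b, rfl⟩ | ⟨a, h, t, t', b, rfl⟩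
    rotate_left
    · simp only [evl, List.map_append, List.map_cons, List.map_nil, Gam_unitLast]
      exact ih Y a (by simpa using hL) (fun q hq => hc q (by simp [hq])) h x hx
    · simp only [evl, List.map_cons, Gam_unitFirst]
      exact ih Y b (by simpa using hL) (fun q hq => hc q (by simp [hq])) g x hx
    · have k2 := ih Y (a ++ (h, fun y => t y * t' y) :: b) (by simp at hL ⊢; omega) (fun r hr => by
        rcases List.mem_append.1 hr with hr | hr
        · exact hc r (by simp [hr])
        · rcases List.mem_cons.1 hr with rfl | hr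
          · have a1 : Continuous t := hc (h, t) (by simp)
            have a2 : Continuous t' := hc (1, t') (by simp)
            exact Continuous.subtype_mk
              ((continuous_subtype_val.comp a1).mul (continuous_subtype_val.comp a2)) _
          · exact hc r (by simp [hr])) g x hx
      simp only [evl, List.map_cons, List.map_append, Gam_unitMid] at k2 ⊢
      exact k2
    have e : ∀ y, Gam seg φ (evl L y) g (x y) = seg (φ ((L.map Prod.fst).prod * g) (x y))
        (Gam seg φ (bd (evl L y)) g (x y)) (radI (evl L y)) := fun y => by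
      rw [Gam_rad (l := evl L y) h0 h1 (by simpa [evl] using hn) hg (List.forall_mem_map.2 hu), pr_evl]
    simp only [e]
    have rc := rad_cont hc
    have rI : Continuous fun y => radI (evl L y) := rc.subtype_mk _
    have fc : Continuous fun y => φ ((L.map Prod.fst).prod * g) (x y) := (hφ _).comp hx
    have hU : IsOpen {y | rad (evl L y) ≠ 0} := isOpen_ne_fun rc continuous_const
    have bc : ContinuousOn (fun y => Gam seg φ (bd (evl L y)) g (x y)) {y | rad (evl L y) ≠ 0} := by
      have : Finite {p // p ∈ L} := L.finite_toSet.to_subtype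
      have tc : ∀ p ∈ L, Continuous fun u : {y | rad (evl L y) ≠ 0} => th (p.2 u) (rad (evl L u.1)) :=
        fun p hp => continuous_projIcc.comp (continuous_const.add (Continuous.div
          ((continuous_subtype_val.comp ((hc p hp).comp continuous_subtype_val)).sub continuous_const)
          (rc.comp continuous_subtype_val) fun u => u.2))
      rw [continuousOn_iff_continuous_domRestrict]
      refine (locallyFinite_of_finite fun i : {p // p ∈ L} × Bool =>
        {u : {y | rad (evl L y) ≠ 0} | th (i.1.1.2 u) (rad (evl L u.1)) =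
          if i.2 then 1 else 0}).continuous ?_
        (fun i => isClosed_eq (tc _ i.1.2) continuous_const) fun i => ?_
      · refine eq_univ_of_forall fun u => ?_
        obtain ⟨_, hq, a⟩ := rad_att u.2
        obtain ⟨p, hp, rfl⟩ := List.mem_map.1 hq
        rcases th_face u.2 a with b | b
        exacts [mem_iUnion.2 ⟨(⟨p, hp⟩, false), b⟩, mem_iUnion.2 ⟨(⟨p, hp⟩, true), b⟩]
      · rw [continuousOn_iff_continuous_domRestrict]
        have k := ih.face (Y := {u : {y | rad (evl L y) ≠ 0} | th (i.1.1.2 u) (rad (evl L u.1)) =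
            if i.2 then 1 else 0})
          (L := L.map fun p => (p.1, fun u => th (p.2 u.1) (rad (evl L u.1.1))))
          (by simpa using hL) (fun q hq => by
            obtain ⟨p, hp, rfl⟩ := List.mem_map.1 hq
            exact (tc p hp).comp continuous_subtype_val) g (x := fun u => x u.1.1)
          (hx.comp (continuous_subtype_val.comp continuous_subtype_val))
          (p := (i.1.1.1, fun u => th (i.1.1.2 u.1) (rad (evl L u.1.1))))
          (List.mem_map.2 ⟨i.1.1, i.1.2, rfl⟩) (e := if i.2 then 1 else 0) (by cases i.2 <;> simp)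
          fun u => u.2
        refine k.congr fun u => ?_
        simp [evl, bd, Function.comp_def]
    refine continuous_iff_continuousAt.2 fun y0 => ?_
    by_cases r0 : rad (evl L y0) = 0
    · rw [ContinuousAt, show radI (evl L y0) = 0 from Subtype.ext r0, h0, Metric.tendsto_nhds]
      intro ε hε
      obtain ⟨δ, δ0, hδ⟩ := Metric.uniformContinuous_iff.1
        (CompactSpace.uniformContinuous_of_continuous hs) ε hε
      have a1 := Metric.tendsto_nhds.1 (fc.tendsto y0) δ δ0
      have a2 := Metric.tendsto_nhds.1 (rI.tendsto y0) δ δ0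
      filter_upwards [a1, a2] with y b1 b2
      rw [show radI (evl L y0) = 0 from Subtype.ext r0] at b2
      have := @hδ (_, Gam seg φ (bd (evl L y)) g (x y), _) (_, Gam seg φ (bd (evl L y)) g (x y), 0)
        (max_lt b1 (max_lt (by rwa [dist_self]) b2))
      rwa [h0] at this
    · exact hs.continuousAt.comp (f := fun y => (_, Gam seg φ (bd (evl L y)) g (x y), radI (evl L y)))
        (fc.continuousAt.prodMk ((bc.continuousAt (hU.mem_nhds r0)).prodMk rI.continuousAt))

/-- the index of the control relation for words of length `n` -/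
def ix : ℕ → ℕ
  | 0 => 0
  | n + 1 => 2 * ix n + 2

/-- the total length of a word -/
noncomputable def sl (ℓ : G → ℕ∞) (l : List (G × I)) (g : G) : ℕ∞ := ((l.map Prod.fst).map ℓ).sum + ℓ g

theorem pr_le {ℓ : G → ℕ∞} (hℓ : ∀ g h, ℓ (g * h) ≤ ℓ g + ℓ h) (l : List (G × I)) (g : G) :
    ℓ (pr l g) ≤ sl ℓ l g := by
  induction l with
  | nil => simp [pr, sl]
  | cons p l ih =>
    simp only [pr, sl, List.map_cons, List.prod_cons, List.sum_cons, mul_assoc, add_assoc] at ih ⊢
    exact (hℓ _ _).trans (add_le_add le_rfl ih)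

theorem ctl (h0 : ∀ x y, seg x y 0 = x) (h1 : ∀ x y, seg x y 1 = y) (hφ1 : ∀ x, φ 1 x = x)
    {ℓ : G → ℕ∞} (hℓ : ∀ g h, ℓ (g * h) ≤ ℓ g + ℓ h) {c : ℕ∞} {k : ℕ}
    {R : ℕ → G → X → X → Prop} (hRφ : ∀ g y, ℓ g ≤ c → R 0 g y (φ g y))
    (hmono : ∀ j j' g y z, j ≤ j' → R j g y z → R j' g y z)
    (hRseg : ∀ j g y z z' t, j + 1 ≤ k → ℓ g ≤ c → R j g y z → R j g y z' →
      R (j + 1) g y (seg z z' t))
    (hcomp : ∀ j g h y z' z, 2 * j + 1 ≤ k → ℓ h ≤ c → R j h y z' → R j g z' z →
      R (2 * j + 1) (g * h) y z) (n : ℕ) : ix n ≤ k → ∀ (l : List (G × I)) (g : G) (y : X),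
    l.length ≤ n → sl ℓ l g ≤ c → R (ix n) (pr l g) y (Gam seg φ l g y) := by
  induction n with
  | zero =>
    intro _ l g y hl hc
    obtain rfl := List.length_eq_zero_iff.1 (Nat.le_zero.1 hl)
    rw [Gam_nil hφ1]
    simpa [pr, ix] using hRφ g y (by simpa [sl] using hc)
  | succ n ih =>
    intro hk l g y hl hc
    have hk' : 2 * ix n + 2 ≤ k := hk
    replace ih := ih (by omega)
    have up : ∀ {g y z}, R (ix n) g y z → R (ix (n + 1)) g y z := fun h =>
      hmono _ _ _ _ _ (show ix n ≤ 2 * ix n + 2 by omega) h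
    by_cases hn : l = []
    · exact up (ih l g y (by simp [hn]) hc)
    rcases unit_cases hn g with ⟨hg, hu⟩ | ⟨a, h, t, rfl, rfl⟩ | ⟨t, b, rfl⟩ | ⟨a, h, t, t', b, rfl⟩
    rotate_left
    · rw [Gam_unitLast, show pr (a ++ [(h, t)]) 1 = pr a h by simp [pr]]
      exact up (ih a h y (by simpa using hl) (le_trans (by simp [sl]) hc))
    · rw [Gam_unitFirst, show pr ((1, t) :: b) g = pr b g by simp [pr]]
      exact up (ih b g y (by simpa using hl) (le_trans (by simp [sl, add_assoc]) hc))
    · rw [Gam_unitMid, show pr (a ++ (h, t) :: (1, t') :: b) g = pr (a ++ (h, t * t') :: b) g by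
        simp [pr]]
      refine up (ih _ g y (by simp at hl ⊢; omega) (le_trans ?_ hc))
      simp only [sl, List.map_append, List.map_cons, List.sum_append, List.sum_cons]
      gcongr
      exact le_add_self
    have c1 := (pr_le hℓ l g).trans hc
    rw [Gam_rad h0 h1 hn hg hu]
    by_cases r0 : rad l = 0
    · rw [show radI l = 0 from Subtype.ext r0, h0]
      exact hmono _ _ _ _ _ (Nat.zero_le _) (hRφ _ y c1)
    refine hRseg (2 * ix n + 1) _ y _ _ _ hk' c1 (hmono _ _ _ _ _ (Nat.zero_le _) (hRφ _ y c1)) ?_
    obtain ⟨⟨h, t⟩, hp, he⟩ := bd_face r0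
    obtain ⟨a, b, e⟩ := List.append_of_mem hp
    rw [← bd_len, e] at hl
    rw [sl, ← bd_fst, e] at hc
    rw [pr, ← bd_fst, e]
    simp only [List.length_append, List.length_cons] at hl
    simp only [List.map_append, List.map_cons, List.sum_append, List.sum_cons] at hc
    have up' : ∀ {g y z}, R (ix n) g y z → R (2 * ix n + 1) g y z := fun h =>
      hmono _ _ _ _ _ (by omega) h
    rcases he with rfl | rfl
    · have c2 : sl ℓ b g ≤ c := le_trans (add_le_add (le_add_left le_add_self) le_rfl) hc
      have c3 : sl ℓ a h ≤ c := le_trans (le_add_right (add_le_add le_rfl le_self_add)) hc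
      have := hcomp _ _ _ y _ _ (by omega) ((pr_le hℓ b g).trans c2) (ih b g y (by omega) c2)
        (ih a h _ (by omega) c3)
      rw [Gam_cut]
      simpa [pr, mul_assoc] using this
    cases b with
    | nil =>
      have := ih a (h * g) y (by omega) (le_trans (by
        simpa [sl, add_assoc] using add_le_add le_rfl (hℓ h g)) hc)
      rw [Gam_mergeLast]
      simpa [pr, mul_assoc] using up' this
    | cons q b =>
      have := ih (a ++ (h * q.1, q.2) :: b) g y (by simp at hl ⊢; omega) (le_trans (by
        simp only [sl, List.map_append, List.map_cons, List.sum_append, List.sum_cons, ← add_assoc]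
        rw [add_assoc _ (ℓ h)]
        gcongr
        exact hℓ _ _) hc)
      rw [Gam_merge]
      simpa [pr, mul_assoc] using up' this

theorem gam_coh [MetricSpace X] [CompactSpace X]
    (hs : Continuous fun p : X × X × I => seg p.1 p.2.1 p.2.2) (h0 : ∀ x y, seg x y 0 = x)
    (h1 : ∀ x y, seg x y 1 = y) (hφ : ∀ g, Continuous (φ g)) (hφ1 : ∀ x, φ 1 x = x) :
    GN.Coherent (Gam seg φ) := by
  refine ⟨fun j γ g => ?_, Gam_cut seg φ, Gam_merge seg φ, Gam_mergeLast seg φ,
    Gam_unitLast seg φ, Gam_unitMid seg φ, Gam_unitFirst seg φ, Gam_unit seg φ⟩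
  have := ctn hs h0 h1 hφ hφ1 j ((Fin j → I) × X) (List.ofFn fun l => (γ l, fun p => p.1 l))
    (by simp) (fun p hp => by
      obtain ⟨i, rfl⟩ := List.mem_ofFn.1 hp
      fun_prop) g Prod.snd continuous_snd
  simpa [evl, List.map_ofFn, Function.comp_def] using this

end Pool.Agent.Work.MP_9d1ffa_al.Hx
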