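import Pool.Agent.Work.MP_9d1ffa_al.Hx.Top
import Pool.Agent.Work.MP_9d1ffa_al.Hx.Cls
import Pool.Agent.Work.MP_9d1ffa_al.Gd.Dc
import Pool.Agent.Work.MP_9d1ffa_al.Ar.Top
import Pool.Agent.Work.MP_9d1ffa_al.GN.Main

/-! Closed classes contain the hierarchies of actions on CAT(0) complexes. -/

namespace Pool.Agent.Work.MP_9d1ffa_al.Hx

open Set Subgroup MulAction Px Gd GN

variable {P : (G : Type) → [Group G] → Prop} {G : Type} [Group G]

theorem of_le (hP : Closed P) {L : Type} [Group L] (f : L →* G) (hf : Function.Injective f)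
    {A : Subgroup L} {B : Subgroup G} (e : A ≤ B.comap f) (h : P B) : P A :=
  hP.inj A B ((f.comp A.subtype).codRestrict B fun x => e x.2)
    (fun _ _ k => Subtype.ext (hf (congrArg Subtype.val k))) h

theorem cat_rule (hP : Closed P) {V X : Type} [MetricSpace X] [Nonempty X] [MulAction G V]
    [MulAction G X] {F : Set (Finset V)} {q : V → V → ℝ} {n : ℕ} {co : X → V → ℝ}
    (cx : Cx F q n co) (iso : ∀ (g : G) (x y : X), dist (g • x) (g • y) = dist x y)
    (eqv : ∀ (g : G) x v, co (g • x) (g • v) = co x v) {C : Set (Subgroup G)} {D m : ℕ}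
    (far : ∀ T : Set X, ∀ x ∈ T, ∀ y ∈ T, D ≤ dist x y → fixingSubgroup G T ∈ C)
    (ht : ∀ B ⊆ C, IsChain (· ≤ ·) B → B.encard ≤ m) (st : ∀ x : X, P (stabilizer G x))
    (ln : ∀ H ∈ C, ∀ a ∈ normalizer (H : Set G), P ↥(zpowers a ⊔ H)) : P G := by
  refine hP.loc G fun H hH => ?_
  have := Ar.Cx0.complete ⟨cx.inj, cx.pts, cx.dim, cx.shp, cx.len⟩
  have iso' : ∀ (g : H) (x y : X), dist (g • x) (g • y) = dist x y := fun g => iso g
  have eqv' : ∀ (g : H) x v, co (g • x) (g • v) = co x v := fun g => eqv g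
  have fx : ∀ T : Set X, fixingSubgroup H T = (fixingSubgroup G T).comap H.subtype := fun T =>
    Subgroup.ext fun g => by
      rw [mem_comap, mem_fixingSubgroup_iff, mem_fixingSubgroup_iff]
      rfl
  obtain ⟨N, E, hN, d⟩ := cx_disc cx iso' eqv'
  obtain ⟨A, hA, -⟩ := exists_geo cx iso' eqv'
  refine hP.htr H {L | P L} ((Group.fg_iff_subgroup_fg H).2 hH) (fun _ h => h) (htr_cat cx.cat A hA
    (gd_ht A (Z := Bary co) (R := D) (h := m) ?_ hN d ?_
      (fun L L' e => of_le hP (MonoidHom.id H) Function.injective_id e)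
      (fun L L' e k h => hP.fin L (L'.subgroupOf L) ⟨k⟩ (hP.inj _ _
        (subgroupOfEquivOfLe e).toMonoidHom (subgroupOfEquivOfLe e).injective h))
      (fun p _ => of_le hP H.subtype H.subtype_injective (B := stabilizer G p) (fun _ h => h) (st p)) ?_)
    fun L h g => hP.inj _ _ (L.equivMapOfInjective _ (MulAut.conj g).injective).symm.toMonoidHom
      (MulEquiv.injective _) h)
  · rintro g p ⟨r, hr⟩
    refine ⟨r, fun v => ?_⟩
    rw [← smul_inv_smul g v, eqv']
    exact hr _
  · rintro T hT - ⟨x, hx, y, hy, e⟩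
    obtain ⟨k, k1, k2⟩ := ht_of_chain ht T hT fun i => far _ x (hT i.zero_le hx) y (hT i.zero_le hy) e
    exact ⟨k, k1, by rw [fx, fx, k2]⟩
  · rintro T - ⟨x, hx, y, hy, e⟩ a ha
    refine of_le hP H.subtype H.subtype_injective (sup_le ?_ ?_)
      (ln _ (far T x hx y hy e) a (norm_fix ha))
    · exact zpowers_le.2 (mem_sup_left (mem_zpowers _))
    · rw [fx]
      exact comap_mono le_sup_right

theorem of_hc (hP : Closed P) (h : Hc G) : P G := by
  induction h with
  | lin G R n ρ h =>
    refine hP.of_ker ρ (hP.gln hmain n R) (Group.isSolvable_of_comm fun a b => Subtype.ext ?_)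
    exact mem_center_iff.1 (h b.2) a
  | fin G H hH _ ih => exact hP.fin G H hH ih
  | loc G _ ih => exact hP.loc G ih
  | cat G V X F q n co cx iso eqv C D m far ht _ _ st ln => exact cat_rule hP cx iso eqv far ht st ln

theorem of_he (hP : Closed P) (h : He P G) : P G := by
  induction h with
  | base G h => exact h
  | lin G R n ρ h => exact hP.of_ker ρ (hP.gln hmain n R) h
  | art S M h => exact of_hc hP (Ar.art_main (M := M) h).1
  | cat G V X F q n co cx iso eqv C D m far ht _ _ st ln => exact cat_rule hP cx iso eqv far ht st ln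

end Pool.Agent.Work.MP_9d1ffa_al.Hx
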