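import Pool.Agent.Work.MP_9d1ffa_al.Hx.Fin

/-! A class of groups closed under the inheritance rules of the Farrell-Jones conjecture contains
the hierarchies of actions on CAT(0) complexes over itself, linear groups and two-dimensional Artin
groups. -/

namespace Pool.Agent.Work.MP_9d1ffa_al.Hx.GLnCat

open Pool.Agent.Work.MP_9d1ffa_al

theorem result (P : (G : Type) → [Group G] → Prop) (hP : GN.Closed P) (G : Type) [Group G]
    (hG : He P G) : P G :=
  Hx.of_he hP hG

end Pool.Agent.Work.MP_9d1ffa_al.Hx.GLnCat
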