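import Pool.Agent.Work.MP_9d1ffa_al.Hx.Nf

/-! Filling cubes radially: the algebraic rules. -/

namespace Pool.Agent.Work.MP_9d1ffa_al.Hx

open unitInterval Set

variable {G X : Type}

open Classical in
/-- evaluate a normal form: cut at the zero parameters -/
noncomputable def Ev (C : List (G × I) → G → X → X) : List (G × I) → List (G × I) → X → X
  | _, [], x => x
  | a, q :: N, x => if q.2 = 0 then C a q.1 (Ev C [] N x) else Ev C (a ++ [q]) N x

theorem Ev_zero (C : List (G × I) → G → X → X) (a N : List (G × I)) (g : G) (x : X) :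
    Ev C a ((g, 0) :: N) x = C a g (Ev C [] N x) := by simp [Ev]

theorem Ev_ne (C : List (G × I) → G → X → X) (a N : List (G × I)) (g : G) {t : I} (h : t ≠ 0)
    (x : X) : Ev C a ((g, t) :: N) x = Ev C (a ++ [(g, t)]) N x := by simp [Ev, h]

theorem Ev_congr {C C' : List (G × I) → G → X → X} {n : ℕ}
    (h : ∀ P g x, P.length ≤ n → C P g x = C' P g x) (x : X) (N : List (G × I)) :
    ∀ a, a.length + nz N ≤ n → Ev C a N x = Ev C' a N x := by
  induction N with
  | nil => exact fun _ _ => rfl
  | cons q N ih =>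
    obtain ⟨g, t⟩ := q
    intro a ha
    by_cases e : t = 0
    · subst e
      rw [nz_zero] at ha
      rw [Ev_zero, Ev_zero, ih [] (by simp; omega), h _ _ _ (by omega)]
    · rw [nz_ne _ e] at ha
      rw [Ev_ne _ _ _ _ e, Ev_ne _ _ _ _ e, ih _ (by simp; omega)]

theorem Ev_red (C : List (G × I) → G → X → X) (g : G) (x : X) {l : List (G × I)}
    (h : ∀ p ∈ l, p.2 ≠ 0) : ∀ a, Ev C a (l ++ [(g, 0)]) x = C (a ++ l) g x := by
  induction l with
  | nil => exact fun a => by rw [List.nil_append, Ev_zero, List.append_nil]; rfl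
  | cons p l ih =>
    intro a
    rw [List.cons_append, Ev_ne _ _ _ _ (h p List.mem_cons_self),
      ih fun q hq => h q (List.mem_cons_of_mem _ hq), List.append_assoc]
    rfl

/-- the distance from the centre of the cube -/
noncomputable def rad : List (G × I) → ℝ
  | [] => 0
  | p :: l => max |2 * (p.2 : ℝ) - 1| (rad l)

/-- the radial projection of one coordinate -/
noncomputable def th (t : I) (r : ℝ) : I := projIcc 0 1 zero_le_one (1 / 2 + (t - 1 / 2) / r)

/-- the radial projection to the boundary of the cube -/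
noncomputable def bd (l : List (G × I)) : List (G × I) := l.map fun p => (p.1, th p.2 (rad l))

theorem rad_nonneg (l : List (G × I)) : 0 ≤ rad l := by
  cases l with
  | nil => exact le_rfl
  | cons p l => exact le_max_of_le_left (abs_nonneg _)

theorem rad_le (l : List (G × I)) : rad l ≤ 1 := by
  induction l with
  | nil => exact zero_le_one
  | cons p l ih => exact max_le (abs_le.2 ⟨by linarith [p.2.2.1], by linarith [p.2.2.2]⟩) ih

theorem le_rad {l : List (G × I)} {p : G × I} (h : p ∈ l) : |2 * (p.2 : ℝ) - 1| ≤ rad l := by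
  induction l with
  | nil => exact absurd h List.not_mem_nil
  | cons q l ih =>
    rcases List.mem_cons.1 h with rfl | h
    exacts [le_max_left _ _, le_max_of_le_right (ih h)]

theorem rad_att {l : List (G × I)} (h : rad l ≠ 0) : ∃ p ∈ l, |2 * (p.2 : ℝ) - 1| = rad l := by
  induction l with
  | nil => exact absurd rfl h
  | cons q l ih =>
    rcases le_total (rad l) |2 * (q.2 : ℝ) - 1| with e | e
    · exact ⟨q, List.mem_cons_self, (max_eq_left e).symm⟩
    · have k : rad (q :: l) = rad l := max_eq_right e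
      obtain ⟨p, hp, a⟩ := ih (k ▸ h)
      exact ⟨p, List.mem_cons_of_mem _ hp, a.trans k.symm⟩

theorem th_face {t : I} {r : ℝ} (h0 : r ≠ 0) (h : |2 * (t : ℝ) - 1| = r) :
    th t r = 0 ∨ th t r = 1 := by
  rcases abs_cases (2 * (t : ℝ) - 1) with e | e
  · refine .inr (projIcc_of_right_le _ (le_of_eq ?_))
    field_simp
    linarith
  · refine .inl (projIcc_of_le_left _ (le_of_eq ?_))
    field_simp
    linarith

theorem th_one (t : I) : th t 1 = t := by simp [th]

theorem bd_face {l : List (G × I)} (h : rad l ≠ 0) : ∃ p ∈ bd l, p.2 = 0 ∨ p.2 = 1 := by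
  obtain ⟨p, hp, a⟩ := rad_att h
  exact ⟨_, List.mem_map_of_mem hp, th_face h a⟩

theorem bd_one {l : List (G × I)} (h : rad l = 1) : bd l = l := by simp [bd, h, th_one]

theorem bd_fst (l : List (G × I)) : (bd l).map Prod.fst = l.map Prod.fst := by
  simp [bd, Function.comp_def]

theorem bd_len (l : List (G × I)) : (bd l).length = l.length := List.length_map _

theorem itr_bd {l : List (G × I)} (h : rad l ≠ 0) : itr (bd l) < l.length := by
  obtain ⟨p, hp, a⟩ := bd_face h
  rw [← bd_len]
  refine lt_of_le_of_ne List.countP_le_length fun e => ?_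
  have := List.countP_eq_length.1 e p hp
  simp only [decide_eq_true_eq] at this
  tauto

/-- the radius as a parameter -/
noncomputable def radI (l : List (G × I)) : I := ⟨rad l, rad_nonneg l, rad_le l⟩

variable [Group G]

/-- the product of a word -/
def pr (l : List (G × I)) (g : G) : G := (l.map Prod.fst).prod * g

theorem Ev_app (C : List (G × I) → G → X → X) (M : List (G × I)) (x : X) {N : List (G × I)} :
    ∀ {τ : I}, Inv τ N → ∀ a, (N = [] → a = []) →
      Ev C a (N ++ M) x = Ev C a N (Ev C [] M x) := by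
  induction N with
  | nil => exact fun _ a ha => by rw [ha rfl]; rfl
  | cons q N ih =>
    obtain ⟨g, t⟩ := q
    intro τ h a _
    by_cases e : t = 0
    · subst e
      rw [List.cons_append, Ev_zero, Ev_zero, ih h.2.2 [] fun _ => rfl]
    · rw [List.cons_append, Ev_ne _ _ _ _ e, Ev_ne _ _ _ _ e,
        ih h.2.2 _ fun k => absurd (by simpa [k, Inv] using h.2.2) e]

variable (seg : X → X → I → X) (φ : G → X → X)

/-- the filling of the cubes of dimension at most `n` -/
noncomputable def Cn : ℕ → List (G × I) → G → X → X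
  | 0 => fun P g x => φ (pr P g) x
  | n + 1 => fun P g x => if P.length ≤ n then Cn n P g x else
      seg (φ (pr P g) x) (Ev (Cn n) [] (nf (bd P) g).2 x) (radI P)

theorem Cn_stab {n : ℕ} {P : List (G × I)} (h : P.length ≤ n) (g : G) (x : X) :
    Cn seg φ n P g x = Cn seg φ P.length P g x := by
  induction n with
  | zero => rw [Nat.le_zero.1 h]
  | succ n ih =>
    rcases Nat.le_succ_iff.1 h with e | e
    · rw [← ih e]
      exact if_pos e
    · rw [e]

/-- the homotopy coherent action -/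
noncomputable def Gam (l : List (G × I)) (g : G) (x : X) : X :=
  Ev (fun P => Cn seg φ P.length P) [] (nf l g).2 x

theorem Gam_cut (a b : List (G × I)) (g g' : G) (x : X) :
    Gam seg φ (a ++ (g, 0) :: b) g' x = Gam seg φ a g (Gam seg φ b g' x) := by
  unfold Gam
  rw [nf_cut]
  exact Ev_app _ _ _ (nf_inv a g) [] fun _ => rfl

theorem Gam_merge (a b : List (G × I)) (g g' : G) (t : I) (g0 : G) (x : X) :
    Gam seg φ (a ++ (g, 1) :: (g', t) :: b) g0 x = Gam seg φ (a ++ (g * g', t) :: b) g0 x := by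
  unfold Gam
  rw [nf_app (l := (g, 1) :: (g', t) :: b) (g := g0) (l' := (g * g', t) :: b) (g' := g0)
    (ins_merge (nf_inv b g0) g g' t)]

theorem Gam_mergeLast (a : List (G × I)) (g g0 : G) (x : X) :
    Gam seg φ (a ++ [(g, 1)]) g0 x = Gam seg φ a (g * g0) x := by
  unfold Gam
  rw [nf_app (l := [(g, 1)]) (g := g0) (l' := []) (g' := g * g0)
    (ins_merge (s := (0, [])) rfl g g0 0), List.append_nil]

theorem Gam_unitLast (a : List (G × I)) (g : G) (t : I) (x : X) :
    Gam seg φ (a ++ [(g, t)]) 1 x = Gam seg φ a g x := by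
  unfold Gam
  rw [nf_app (l := [(g, t)]) (g := 1) (l' := []) (g' := g)
    ((ins_unit g t 0 _).trans (by rw [mul_zero]; rfl)),
    List.append_nil]

theorem Gam_unitMid (a b : List (G × I)) (g : G) (t t' : I) (g0 : G) (x : X) :
    Gam seg φ (a ++ (g, t) :: (1, t') :: b) g0 x = Gam seg φ (a ++ (g, t * t') :: b) g0 x := by
  unfold Gam
  rw [nf_app (l := (g, t) :: (1, t') :: b) (g := g0) (l' := (g, t * t') :: b) (g' := g0)
    (ins_unit g t t' _)]

theorem Gam_unitFirst (l : List (G × I)) (t : I) (g0 : G) (x : X) :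
    Gam seg φ ((1, t) :: l) g0 x = Gam seg φ l g0 x := by
  unfold Gam
  rw [nf_cons, ins_one]

theorem Gam_unit (x : X) : Gam seg φ [] (1 : G) x = x := by
  unfold Gam
  rw [show nf [] (1 : G) = (0 * 0, []) from ins_one _ _ _]
  rfl

variable {seg φ}

theorem Gam_nil (h : ∀ x, φ 1 x = x) (g : G) (x : X) : Gam seg φ [] g x = φ g x := by
  by_cases e : g = 1
  · rw [e, Gam_unit, h]
  · unfold Gam
    rw [nf_red e (by simp), Ev_red _ _ _ (by simp)]
    simp [Cn, pr]

theorem Gam_rad (h0 : ∀ x y, seg x y 0 = x) (h1 : ∀ x y, seg x y 1 = y) {l : List (G × I)} {g : G}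
    (hl : l ≠ []) (hg : g ≠ 1) (h : ∀ p ∈ l, p.1 ≠ 1) (x : X) :
    Gam seg φ l g x = seg (φ (pr l g) x) (Gam seg φ (bd l) g x) (radI l) := by
  by_cases e : rad l = 1
  · rw [bd_one e, show radI l = 1 from Subtype.ext e, h1]
  have k : ∀ p ∈ l, p.2 ≠ 0 ∧ p.2 ≠ 1 := fun p hp => by
    have := le_rad hp
    constructor <;> intro a <;> rw [a] at this <;> norm_num at this <;>
      exact e (le_antisymm (rad_le l) this)
  obtain ⟨n, hn⟩ : ∃ n, l.length = n + 1 := ⟨_, (Nat.succ_pred_eq_of_pos (List.length_pos_of_ne_nil hl)).symm⟩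
  have a : Gam seg φ l g x =
      seg (φ (pr l g) x) (Ev (Cn seg φ n) [] (nf (bd l) g).2 x) (radI l) := by
    unfold Gam
    rw [nf_red hg fun p hp => ⟨h p hp, (k p hp).2⟩, Ev_red _ _ _ fun p hp => (k p hp).1,
      List.nil_append, hn]
    exact if_neg (by omega)
  rw [a]
  by_cases e0 : rad l = 0
  · rw [show radI l = 0 from Subtype.ext e0, h0, h0]
  · have b := nf_nz (bd l) g
    have c := itr_bd e0
    rw [Ev_congr (n := n) (fun P g x hP => Cn_stab seg φ hP g x) x _ [] (by simp; omega)]
    rfl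

/-- the position of a trivial letter -/
theorem unit_cases {β : Type} {L : List (G × β)} (hL : L ≠ []) (g : G) :
    (g ≠ 1 ∧ ∀ p ∈ L, p.1 ≠ 1) ∨ (∃ a h t, g = 1 ∧ L = a ++ [(h, t)]) ∨
      (∃ t b, L = (1, t) :: b) ∨ ∃ a h t t' b, L = a ++ (h, t) :: (1, t') :: b := by
  by_cases hg : g = 1
  · obtain ⟨a, p, rfl⟩ := (List.eq_nil_or_concat' L).resolve_left hL
    exact .inr (.inl ⟨a, p.1, p.2, hg, rfl⟩)
  by_cases h : ∀ p ∈ L, p.1 ≠ 1
  · exact .inl ⟨hg, h⟩
  push Not at h
  obtain ⟨⟨_, t⟩, hp, rfl⟩ := h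
  obtain ⟨a, b, rfl⟩ := List.append_of_mem hp
  rcases List.eq_nil_or_concat' a with rfl | ⟨a, p, rfl⟩
  · exact .inr (.inr (.inl ⟨t, b, rfl⟩))
  · exact .inr (.inr (.inr ⟨a, p.1, p.2, t, b, by simp⟩))

end Pool.Agent.Work.MP_9d1ffa_al.Hx
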