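import Pool.Agent.Work.MP_9d1ffa_al.Gd.Zm
import Pool.Agent.Work.MP_9d1ffa_al.Px.In

/-! Bent segments and totally bounded sets that are closed under them. -/

namespace Pool.Agent.Work.MP_9d1ffa_al.Hx

open unitInterval Set Px Gd

variable {G X : Type} [MetricSpace X] (h : Cat0 X) {s s' t : ℝ}

theorem mix_mem (hs : s ∈ Icc (0 : ℝ) 1) (hs' : s' ∈ Icc (0 : ℝ) 1) (ht : t ∈ Icc (0 : ℝ) 1) :
    (1 - t) * s + t * s' ∈ Icc (0 : ℝ) 1 :=
  ⟨by nlinarith [hs.1, hs'.1, ht.1, ht.2], by nlinarith [hs.2, hs'.2, ht.1, ht.2]⟩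

theorem jn_jn (x y : X) (hs : s ∈ Icc (0 : ℝ) 1) (hs' : s' ∈ Icc (0 : ℝ) 1)
    (ht : t ∈ Icc (0 : ℝ) 1) :
    jn h (jn h x y s) (jn h x y s') t = jn h x y ((1 - t) * s + t * s') := by
  have k := mix_mem hs hs' ht
  refine (jn_uniq h ht (le_of_eq ?_) (le_of_eq ?_)).symm
  · rw [jn_tim h x y hs k, jn_tim h x y hs hs', show s - ((1 - t) * s + t * s') = t * (s - s') by ring,
      abs_mul, abs_of_nonneg ht.1, mul_assoc]
  · rw [jn_tim h x y k hs', jn_tim h x y hs hs',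
      show (1 - t) * s + t * s' - s' = (1 - t) * (s - s') by ring, abs_mul,
      abs_of_nonneg (sub_nonneg.2 ht.2), mul_assoc]

theorem rho_rho (x o : X) (hs : s ∈ Icc (0 : ℝ) 1) (ht : t ∈ Icc (0 : ℝ) 1) :
    jn h (jn h x o s) o t = jn h x o ((1 - t) * s + t * 1) := by
  rw [← jn_jn h x o hs ⟨zero_le_one, le_rfl⟩ ht, jn_one]

theorem rho_lip (x y o : X) (hs : s ∈ Icc (0 : ℝ) 1) :
    dist (jn h x o s) (jn h y o s) ≤ (1 - s) * dist x y := by
  simpa using jn_cvx h x o y o hs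

theorem rho_split (x o : X) (hs : 0 ≤ s) (h1 : s ≤ s') (h2 : s' ≤ 1) :
    ∃ u ∈ Icc (0 : ℝ) 1, jn h x o s' = jn h (jn h x o s) o u := by
  rcases (h1.trans h2).eq_or_lt with e | e
  · exact ⟨0, ⟨le_rfl, zero_le_one⟩, by rw [jn_zero, le_antisymm h1 (e ▸ h2)]⟩
  have a : 0 < 1 - s := sub_pos.2 e
  have b : (s' - s) / (1 - s) ∈ Icc (0 : ℝ) 1 :=
    ⟨div_nonneg (sub_nonneg.2 h1) a.le, (div_le_one a).2 (by linarith)⟩
  refine ⟨_, b, ?_⟩
  rw [rho_rho h x o ⟨hs, e.le⟩ b]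
  congr 1
  field_simp
  ring

/-- the amount of bending -/
noncomputable def bt (a : ℝ) (x y : X) (t : I) : ℝ := min a √(√(t * (1 - t) * dist x y))

/-- segments that are bent towards the base point -/
noncomputable def bs (o : X) (a : ℝ) (x y : X) (t : I) : X := jn h (jn h x y t) o (bt a x y t)

variable {o : X} {a : ℝ}

theorem bt_mem (ha : a ∈ Icc (0 : ℝ) 1) (x y : X) (t : I) : bt a x y t ∈ Icc (0 : ℝ) 1 :=
  ⟨le_min ha.1 (Real.sqrt_nonneg _), (min_le_left _ _).trans ha.2⟩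

theorem bs_zero (ha : 0 ≤ a) (x y : X) : bs h o a x y 0 = x := by simp [bs, bt, ha, jn_zero]

theorem bs_one (ha : 0 ≤ a) (x y : X) : bs h o a x y 1 = y := by simp [bs, bt, ha, jn_zero, jn_one]

theorem bs_self (ha : 0 ≤ a) (x : X) (t : I) : bs h o a x x t = x := by
  simp [bs, bt, ha, jn_zero, (jn_bi h).self x t.2]

theorem bs_cont (ha : a ∈ Icc (0 : ℝ) 1) :
    Continuous fun p : X × X × I => bs h o a p.1 p.2.1 p.2.2 :=
  (jn_bi h).cont ((jn_bi h).cont (by fun_prop) (by fun_prop) (by fun_prop) fun p => p.2.2.2)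
    continuous_const (by unfold bt; fun_prop) fun _ => bt_mem ha _ _ _

variable [Group G] [MulAction G X]

theorem jn_smul (iso : ∀ (g : G) (x y : X), dist (g • x) (g • y) = dist x y) (g : G) (x y : X)
    (ht : t ∈ Icc (0 : ℝ) 1) : g • jn h x y t = jn h (g • x) (g • y) t :=
  jn_uniq h ht (by rw [iso, iso]; exact jn_left_le h x y ht)
    (by rw [iso, iso]; exact jn_right_le h x y ht)

theorem rho_smul (iso : ∀ (g : G) (x y : X), dist (g • x) (g • y) = dist x y) (g : G) (y : X)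
    (ht : t ∈ Icc (0 : ℝ) 1) : dist (jn h (g • y) o t) (g • jn h y o t) ≤ t * dist (g • o) o := by
  rw [jn_smul h iso g y o ht, dist_comm (g • o)]
  exact jn_cvx1 h _ _ _ ht

/-- the smallest set that is closed under the contracted action and the bent segments -/
inductive Kp (o : X) (a : ℝ) (S : Finset G) : X → Prop
  | base : Kp o a S o
  | act (g : G) (x : X) : g ∈ S → Kp o a S x → Kp o a S (jn h (g • x) o a)
  | seg (x y : X) (t : I) : Kp o a S x → Kp o a S y → Kp o a S (bs h o a x y t)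

variable {h} {S : Finset G} {T κ : ℝ}

theorem Kp.ball (iso : ∀ (g : G) (x y : X), dist (g • x) (g • y) = dist x y)
    (ha : a ∈ Icc (0 : ℝ) 1) (hκ : ∀ g ∈ S, dist (g • o) o ≤ κ) (T0 : 0 ≤ T)
    (hT : (1 - a) * (T + κ) ≤ T) {z : X} (hz : Kp h o a S z) : dist z o ≤ T := by
  induction hz with
  | base => simpa using T0
  | act g x hg _ ih =>
    rw [jn_right h _ _ ha]
    refine le_trans (mul_le_mul_of_nonneg_left ?_ (sub_nonneg.2 ha.2)) hT
    linarith [dist_triangle (g • x) (g • o) o, iso g x o, hκ g hg]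
  | seg x y t _ _ i1 i2 =>
    exact (jn_bi h).ball (bt_mem ha x y t) ((jn_bi h).ball t.2 i1 i2) (by simpa using T0)

theorem Kp.near (ha : a ∈ Icc (0 : ℝ) 1) (h1 : (1 : G) ∈ S) (s0 : 0 ≤ s) (s1 : s ≤ a) {z : X}
    (hz : Kp h o a S z) : ∃ u ∈ Icc (0 : ℝ) 1,
      ∃ v ∈ Jn (jn h) {w | ∃ g ∈ S, ∃ x ∈ {z | Kp h o a S z}, w = g • x},
        dist z (jn h (jn h v o s) o u) ≤ 2 * s ^ 3 := by
  have e0 : 0 ≤ 2 * s ^ 3 := by positivity
  induction hz with
  | base => exact ⟨1, ⟨zero_le_one, le_rfl⟩, _, (jn_bi h).sub _ ⟨1, h1, o, .base, rfl⟩, by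
      rwa [jn_one, dist_self]⟩
  | act g x hg hx _ =>
    obtain ⟨u, hu, e⟩ := rho_split h (g • x) o s0 s1 ha.2
    exact ⟨u, hu, _, (jn_bi h).sub _ ⟨g, hg, x, hx, rfl⟩, by rwa [e, dist_self]⟩
  | seg x y t hx hy i1 i2 =>
    have b := bt_mem ha x y t
    rcases le_or_gt s (bt a x y t) with k | k
    · obtain ⟨u, hu, e⟩ := rho_split h (jn h x y t) o s0 k b.2
      exact ⟨u, hu, _, ⟨x, ⟨1, h1, x, hx, (one_smul _ _).symm⟩, y, ⟨1, h1, y, hy, (one_smul _ _).symm⟩,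
        t, t.2, rfl⟩, by rwa [bs, e, dist_self]⟩
    have t0 := t.2.1
    have t1 := sub_nonneg.2 t.2.2
    have d0 : 0 ≤ dist x y := dist_nonneg
    have b4 : bt a x y t ^ 4 = t * (1 - t) * dist x y := by
      have : bt a x y t = √(√(t * (1 - t) * dist x y)) :=
        min_eq_right (le_of_not_ge fun e => (k.trans_le s1).ne (min_eq_left e))
      rw [this, show 4 = 2 * 2 from rfl, pow_mul, Real.sq_sqrt (Real.sqrt_nonneg _),
        Real.sq_sqrt (by positivity)]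
    obtain ⟨u, hu, v, hv, e⟩ : ∃ u ∈ Icc (0 : ℝ) 1,
        ∃ v ∈ Jn (jn h) {w | ∃ g ∈ S, ∃ x ∈ {z | Kp h o a S z}, w = g • x},
          dist (jn h x y t) (jn h (jn h v o s) o u) ≤ 2 * bt a x y t ^ 4 + 2 * s ^ 3 := by
      rcases le_total (t : ℝ) (1 / 2) with c | c
      · obtain ⟨u, hu, v, hv, e⟩ := i1
        refine ⟨u, hu, v, hv, (dist_triangle_left _ _ x).trans (add_le_add ?_ e)⟩
        rw [jn_left h x y t.2, b4]
        nlinarith [mul_nonneg t0 d0]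
      · obtain ⟨u, hu, v, hv, e⟩ := i2
        refine ⟨u, hu, v, hv, (dist_triangle _ y _).trans (add_le_add ?_ e)⟩
        rw [jn_right h x y t.2, b4]
        nlinarith [mul_nonneg t1 d0]
    refine ⟨_, mix_mem hu ⟨zero_le_one, le_rfl⟩ b, v, hv, ?_⟩
    rw [← rho_rho h _ o hu b]
    refine (rho_lip h _ _ o b).trans ((mul_le_mul_of_nonneg_left e (sub_nonneg.2 b.2)).trans ?_)
    have c1 := mul_le_mul_of_nonneg_left (pow_le_pow_left₀ b.1 k.le 3) b.1
    have c2 : 0 ≤ bt a x y t ^ 5 := pow_nonneg b.1 5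
    nlinarith

theorem Kp.cov (iso : ∀ (g : G) (x y : X), dist (g • x) (g • y) = dist x y)
    (ha : a ∈ Icc (0 : ℝ) 1) (h1 : (1 : G) ∈ S) (hκ : ∀ g ∈ S, dist (g • o) o ≤ κ) (T0 : 0 ≤ T)
    (hT : (1 - a) * (T + κ) ≤ T) {m c : ℕ} (m0 : 0 < m) (m1 : 1 / (m : ℝ) ≤ a) (m2 : T ≤ m)
    (m3 : κ ≤ m) (hc : S.card ≤ c) : Cov o (T + κ * m) (4 / m)
      (((c + 1) * (12 * m ^ 4 + 1)) ^ (2 ^ (1 + 2)) ^ m ^ 3) {z | Kp h o a S z} := by
  have M1 : (1 : ℝ) ≤ m := by exact_mod_cast m0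
  have M0 : (0 : ℝ) < m := by linarith
  have k0 : 0 ≤ κ := dist_nonneg.trans (hκ 1 h1)
  obtain ⟨s, hs⟩ : ∃ s : ℝ, s = 1 / m := ⟨_, rfl⟩
  have s0 : 0 < s := by rw [hs]; positivity
  have s1 : s * m = 1 := by rw [hs]; field_simp
  have s2 : s ∈ Icc (0 : ℝ) 1 := ⟨s0.le, (hs ▸ m1).trans ha.2⟩
  have l0 := sub_nonneg.2 s2.2
  obtain ⟨R, hR⟩ : ∃ R, R = T + κ * m := ⟨_, rfl⟩
  have R0 : 0 ≤ R := by rw [hR]; positivity
  have D0 : 0 < 12 * m ^ 4 := by positivity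
  have R1 : 2 * (R + κ) / (12 * m ^ 4 : ℕ) ≤ s ^ 2 / 2 := by
    have : R + κ ≤ 3 * m ^ 2 := by rw [hR]; nlinarith
    push_cast
    rw [div_le_iff₀ (by positivity)]
    have e : s ^ 2 / 2 * (12 * m ^ 4) = 6 * m ^ 2 * (s * m) ^ 2 := by ring
    rw [e, s1]
    linarith
  have R2 : 2 * R / (12 * m ^ 4 : ℕ) ≤ s ^ 2 / 2 := le_trans (by gcongr; linarith) R1
  have key : ∀ j, Cov o R ((1 - s) ^ j * T + (s + 2 * s ^ 2))
      ((stp S.card (12 * m ^ 4) 1)^[j] 1) {z | Kp h o a S z} := fun j => by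
    induction j with
    | zero =>
      refine ⟨{o}, by simp, by simpa using R0, fun z hz => ⟨o, by simp, ?_⟩⟩
      refine (Kp.ball iso ha hκ T0 hT hz).trans ?_
      rw [pow_zero, one_mul]
      exact le_add_of_nonneg_right (by positivity)
    | succ j ih =>
      set r := (1 - s) ^ j * T + (s + 2 * s ^ 2) with hr
      have r0 : 0 ≤ r := by positivity
      have k1 := (ih.fam S (fun g x => g • x) (R' := R + κ) (r' := r) (fun g hg x hx => by
        linarith [dist_triangle (g • x) (g • o) o, iso g x o, hκ g hg])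
        fun g _ x y k => (iso g x y).trans_le k).join (jn_bi h) D0
      have k2 := k1.fam (R' := R) (r' := (1 - s) * (r + s ^ 2 / 2)) ({()} : Finset Unit)
        (fun _ x => jn h x o s) (fun _ _ x hx => by
          rw [jn_right h _ _ s2]
          refine (mul_le_mul_of_nonneg_left hx l0).trans ?_
          have e : s * R = s * T + κ * (s * m) := by rw [hR]; ring
          nlinarith [mul_nonneg s0.le T0, mul_nonneg s0.le k0])
        fun _ _ x y k => (rho_lip h x y o s2).trans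
          (mul_le_mul_of_nonneg_left (k.trans (by linarith)) l0)
      obtain ⟨F, f1, f2, f3⟩ := (k2.ins R0 (by positivity)).join (jn_bi h) D0
      rw [Function.iterate_succ_apply']
      refine ⟨F, f1.trans (by simp [stp]), f2, fun z hz => ?_⟩
      obtain ⟨u, hu, v, hv, e⟩ := Kp.near ha h1 s0.le (hs ▸ m1) hz
      obtain ⟨f, hf, k⟩ := f3 _ ⟨_, mem_insert_of_mem _ ⟨(), by simp, v, hv, rfl⟩, o, mem_insert _ _,
        u, hu, rfl⟩
      refine ⟨f, hf, (dist_triangle _ _ _).trans ((add_le_add e k).trans ?_)⟩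
      rw [hr, pow_succ (1 - s)]
      nlinarith [pow_pos s0 3]
  refine (hR ▸ key (m ^ 3)).mono le_rfl ?_ (stp_iter hc _ _ _) subset_rfl
  have c1 := one_add_mul_le_pow (a := s) (by linarith) (m ^ 3)
  have c2 : (1 - s) ^ m ^ 3 * (1 + s) ^ m ^ 3 ≤ 1 := by
    rw [← mul_pow]
    exact pow_le_one₀ (by positivity) (by nlinarith)
  have c3 : (0 : ℝ) ≤ (1 - s) ^ m ^ 3 := by positivity
  have c4 : ((m ^ 3 : ℕ) : ℝ) * s = m ^ 2 := by
    push_cast
    linear_combination (m : ℝ) ^ 2 * s1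
  rw [c4] at c1
  have c5 : (1 - s) ^ m ^ 3 * m ^ 2 ≤ 1 := by nlinarith
  have c6 : (1 - s) ^ m ^ 3 * m ≤ s := by
    have := mul_le_mul_of_nonneg_right c5 s0.le
    have e : (1 - s) ^ m ^ 3 * m ^ 2 * s = (1 - s) ^ m ^ 3 * m * (s * m) := by ring
    rwa [e, s1, mul_one, one_mul] at this
  have c7 := mul_le_mul_of_nonneg_left m2 c3
  rw [show (4 : ℝ) / m = 4 * s by rw [hs]; ring]
  nlinarith [s2.2]

theorem cov_closure {R r : ℝ} {N : ℕ} {A : Set X} (k : Cov o R r N A) : Cov o R r N (closure A) := by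
  obtain ⟨F, f1, f2, f3⟩ := k
  refine ⟨F, f1, f2, fun x hx => ?_⟩
  have := closure_minimal (t := ⋃ f ∈ F, Metric.closedBall f r)
    (fun y hy => let ⟨f, hf, e⟩ := f3 y hy; mem_biUnion hf e)
    (isClosed_biUnion_finset fun _ _ => Metric.isClosed_closedBall) hx
  simpa using this

end Pool.Agent.Work.MP_9d1ffa_al.Hx
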