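import Pool.Agent.Work.MP_9d1ffa_al.GN.Defs

/-! Normal forms of words with letters in a group and parameters in the unit interval. -/

namespace Pool.Agent.Work.MP_9d1ffa_al.Hx

open unitInterval

variable {G : Type} [Group G]

open Classical in
/-- put a letter in front of a normal form with a pending parameter -/
noncomputable def ins (p : G × I) (s : I × List (G × I)) : I × List (G × I) :=
  if p.1 = 1 then (p.2 * s.1, s.2)
  else if p.2 * s.1 = 1 then
    match s.2 with
    | [] => s
    | q :: N => if p.1 * q.1 = 1 then (q.2, N) else (1, (p.1 * q.1, q.2) :: N)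
  else (1, (p.1, p.2 * s.1) :: s.2)

/-- normal forms -/
def Inv : I → List (G × I) → Prop
  | τ, [] => τ = 0
  | _, q :: N => q.1 ≠ 1 ∧ q.2 ≠ 1 ∧ Inv q.2 N

theorem mul_eq_one' {a b : I} : a * b = 1 ↔ a = 1 ∧ b = 1 := by
  refine ⟨fun h => ⟨le_antisymm le_one' (h.ge.trans mul_le_left),
    le_antisymm le_one' (h.ge.trans mul_le_right)⟩, ?_⟩
  rintro ⟨rfl, rfl⟩
  exact mul_one _

theorem ins_one (t τ : I) (N : List (G × I)) : ins (1, t) (τ, N) = (t * τ, N) := by simp [ins]

theorem ins_ne {g : G} (hg : g ≠ 1) {t τ : I} (h : t * τ ≠ 1) (N : List (G × I)) :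
    ins (g, t) (τ, N) = (1, (g, t * τ) :: N) := by simp [ins, hg, h]

theorem ins_can {g g' : G} (hg : g ≠ 1) (h : g * g' = 1) (t : I) (N : List (G × I)) :
    ins (g, 1) (1, (g', t) :: N) = (t, N) := by simp [ins, hg, h]

theorem ins_mul {g g' : G} (hg : g ≠ 1) (h : g * g' ≠ 1) (t : I) (N : List (G × I)) :
    ins (g, 1) (1, (g', t) :: N) = (1, (g * g', t) :: N) := by simp [ins, hg, h]

theorem Inv.mul {τ : I} {N : List (G × I)} (h : Inv τ N) (t : I) : Inv (t * τ) N := by
  cases N with
  | nil => exact (congrArg (t * ·) h).trans (mul_zero t)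
  | cons q N => exact h

/-- the four cases -/
theorem ins_ind {τ : I} {N : List (G × I)} (h : Inv τ N) (g : G) (t : I) :
    g = 1 ∨ g ≠ 1 ∧ t * τ ≠ 1 ∨ g ≠ 1 ∧ t = 1 ∧ τ = 1 ∧ ∃ g' t' N', N = (g', t') :: N' ∧
      g' ≠ 1 ∧ t' ≠ 1 ∧ Inv t' N' := by
  by_cases hg : g = 1
  · exact .inl hg
  by_cases ht : t * τ = 1
  · obtain ⟨rfl, rfl⟩ := mul_eq_one'.1 ht
    cases N with
    | nil => exact absurd h one_ne_zero
    | cons q N => exact .inr (.inr ⟨hg, rfl, rfl, q.1, q.2, N, rfl, h⟩)
  · exact .inr (.inl ⟨hg, ht⟩)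

theorem Inv.ins {s : I × List (G × I)} (h : Inv s.1 s.2) (p : G × I) :
    Inv (ins p s).1 (ins p s).2 := by
  obtain ⟨g, t⟩ := p
  obtain ⟨τ, N⟩ := s
  rcases ins_ind h g t with rfl | ⟨a, b⟩ | ⟨a, rfl, rfl, g', t', N', rfl, b, c, d⟩
  · rw [ins_one]
    exact h.mul t
  · rw [ins_ne a b]
    exact ⟨a, b, h.mul t⟩
  · by_cases e : g * g' = 1
    · rwa [ins_can a e]
    · rw [ins_mul a e]
      exact ⟨e, c, d⟩

theorem ins_unit (g : G) (t t' : I) (s : I × List (G × I)) :
    ins (g, t) (ins (1, t') s) = ins (g, t * t') s := by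
  obtain ⟨τ, N⟩ := s
  rw [ins_one]
  unfold ins
  simp only [mul_assoc]
  split_ifs with a b
  · rfl
  · cases N with
    | nil => simp [(mul_eq_one'.1 (mul_eq_one'.1 b).2).1]
    | cons q N => rfl
  · rfl

theorem ins_merge {s : I × List (G × I)} (h : Inv s.1 s.2) (g g' : G) (t : I) :
    ins (g, 1) (ins (g', t) s) = ins (g * g', t) s := by
  obtain ⟨τ, N⟩ := s
  by_cases hg : g = 1
  · subst hg
    rw [one_mul]
    generalize ins (g', t) (τ, N) = u
    obtain ⟨a, b⟩ := u
    rw [ins_one, one_mul]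
  rcases ins_ind h g' t with rfl | ⟨a, b⟩ | ⟨a, rfl, rfl, g'', t', N', rfl, b, c, d⟩
  · rw [ins_unit, mul_one, one_mul]
  · rw [ins_ne a b]
    by_cases e : g * g' = 1
    · rw [ins_can hg e, e, ins_one]
    · rw [ins_mul hg e, ins_ne e b]
  · by_cases e : g' * g'' = 1
    · have e1 : g * g' * g'' = g := by rw [mul_assoc, e, mul_one]
      rw [ins_can a e, ins_ne hg (by rwa [one_mul]), one_mul]
      by_cases e' : g * g' = 1
      · rw [e', ins_one, one_mul, ← e1, e', one_mul]
      · rw [ins_mul e' (e1.symm ▸ hg), e1]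
    · rw [ins_mul a e]
      by_cases e' : g * g' = 1
      · have e1 : g * (g' * g'') = g'' := by rw [← mul_assoc, e', one_mul]
        rw [ins_mul hg (e1.symm ▸ b), e1, e', ins_one, one_mul]
      · by_cases e2 : g * (g' * g'') = 1
        · rw [ins_can hg e2, ins_can e' (by rwa [mul_assoc])]
        · rw [ins_mul hg e2, ins_mul e' (by rwa [mul_assoc]), mul_assoc]

theorem ins_app {s : I × List (G × I)} (h : Inv s.1 s.2) (p : G × I) (M : List (G × I)) :
    ins p (s.1, s.2 ++ M) = ((ins p s).1, (ins p s).2 ++ M) := by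
  obtain ⟨g, t⟩ := p
  obtain ⟨τ, N⟩ := s
  rcases ins_ind h g t with rfl | ⟨a, b⟩ | ⟨a, rfl, rfl, g', t', N', rfl, b, c, d⟩
  · simp only [ins_one]
  · simp only [ins_ne a b, List.cons_append]
  · by_cases e : g * g' = 1
    · simp only [ins_can a e, List.cons_append]
    · simp only [ins_mul a e, List.cons_append]

/-- the normal form of a word -/
noncomputable def nf (l : List (G × I)) (g : G) : I × List (G × I) :=
  l.foldr ins (ins (g, 0) (0, []))

theorem nf_cons (p : G × I) (l : List (G × I)) (g : G) : nf (p :: l) g = ins p (nf l g) := rfl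

theorem nf_inv (l : List (G × I)) (g : G) : Inv (nf l g).1 (nf l g).2 := by
  induction l with
  | nil => exact Inv.ins (s := (0, [])) rfl _
  | cons p l ih => exact ih.ins p

theorem nf_app {l l' : List (G × I)} {g g' : G} (h : nf l g = nf l' g') (a : List (G × I)) :
    nf (a ++ l) g = nf (a ++ l') g' := by
  induction a with
  | nil => exact h
  | cons p a ih => simp only [List.cons_append, nf_cons, ih]

theorem nf_cut (a b : List (G × I)) (g g' : G) :
    nf (a ++ (g, 0) :: b) g' = ((nf a g).1, (nf a g).2 ++ (nf b g').2) := by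
  induction a with
  | nil =>
    rw [List.nil_append, nf_cons]
    generalize nf b g' = s
    obtain ⟨τ, N⟩ := s
    change _ = ((ins (g, 0) (0, [])).1, (ins (g, 0) (0, [])).2 ++ N)
    by_cases e : g = 1
    · simp [e, ins_one]
    · rw [ins_ne e (by simp), ins_ne e (by simp)]
      simp
  | cons p a ih => rw [List.cons_append, nf_cons, ih, ins_app (nf_inv a g), nf_cons]

theorem nf_red {l : List (G × I)} {g : G} (hg : g ≠ 1) (h : ∀ p ∈ l, p.1 ≠ 1 ∧ p.2 ≠ 1) :
    nf l g = (1, l ++ [(g, 0)]) := by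
  induction l with
  | nil => exact (ins_ne hg (by simp) _).trans (by simp)
  | cons p l ih =>
    obtain ⟨a, b⟩ := h p List.mem_cons_self
    rw [nf_cons, ih fun q hq => h q (List.mem_cons_of_mem _ hq), ins_ne a (by rwa [mul_one]),
      mul_one, List.cons_append]

open Classical in
/-- the number of interior parameters -/
noncomputable def itr (l : List (G × I)) : ℕ := l.countP fun p => p.2 ≠ 0 ∧ p.2 ≠ 1

open Classical in
/-- the number of non-zero parameters -/
noncomputable def nz (l : List (G × I)) : ℕ := l.countP fun p => p.2 ≠ 0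

omit [Group G] in
theorem nz_zero (g : G) (l : List (G × I)) : nz ((g, 0) :: l) = nz l := by simp [nz]

omit [Group G] in
theorem nz_ne (g : G) {t : I} (h : t ≠ 0) (l : List (G × I)) : nz ((g, t) :: l) = nz l + 1 := by
  simp [nz, h]

theorem itr_cons (g : G) (t : I) (l : List (G × I)) :
    itr ((g, t) :: l) = itr l + itr [((1 : G), t)] := by
  simp [itr, List.countP_cons]

theorem itr_mul (t τ : I) :
    itr [((1 : G), t * τ)] ≤ itr [((1 : G), t)] + itr [((1 : G), τ)] := by
  by_cases a : t = 0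
  · simp [itr, a]
  by_cases b : τ = 0
  · simp [itr, b]
  by_cases c : t = 1
  · simp [c]
  · simp only [itr, List.countP_cons, List.countP_nil]
    simp only [a, c, ne_eq, not_false_eq_true, and_self, decide_true, if_true]
    split_ifs <;> omega

theorem nz_cons (g : G) {t : I} (h : t ≠ 1) (l : List (G × I)) :
    nz ((g, t) :: l) = nz l + itr [((1 : G), t)] := by
  by_cases a : t = 0 <;> simp [nz, itr, a, h]

theorem nf_nz (l : List (G × I)) (g : G) :
    nz (nf l g).2 + itr [((1 : G), (nf l g).1)] ≤ itr l := by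
  have i1 : itr [((1 : G), (1 : I))] = 0 := by simp [itr]
  induction l with
  | nil =>
    change nz (ins (g, 0) (0, [])).2 + itr [((1 : G), (ins (g, 0) (0, [])).1)] ≤ _
    by_cases e : g = 1
    · simp [e, ins_one, nz, itr]
    · rw [ins_ne e (by simp)]
      simp [nz, itr]
  | cons p l ih =>
    obtain ⟨h, t⟩ := p
    have k := nf_inv l g
    rw [nf_cons, itr_cons h t l]
    generalize nf l g = s at ih k
    obtain ⟨τ, N⟩ := s
    have m := itr_mul (G := G) t τ
    rcases ins_ind k h t with rfl | ⟨a, b⟩ | ⟨a, rfl, rfl, g', t', N', rfl, b, c, d⟩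
    · rw [ins_one]
      dsimp only at ih ⊢
      omega
    · dsimp only at b
      rw [ins_ne a b]
      dsimp only at ih ⊢
      rw [nz_cons _ b]
      omega
    · dsimp only at ih
      rw [nz_cons _ c] at ih
      by_cases e : h * g' = 1
      · rw [ins_can a e]
        dsimp only
        omega
      · rw [ins_mul a e]
        dsimp only
        rw [nz_cons _ c]
        omega

end Pool.Agent.Work.MP_9d1ffa_al.Hx
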