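import Pool.Agent.Work.MP_9d1ffa_al.GN.Nrm
import Pool.Agent.Work.MP_9d1ffa_al.WL.Df

/-! Transfer spaces from continuous segments, and smoothing of positions. -/

namespace Pool.Agent.Work.MP_9d1ffa_al.Hx

open unitInterval Set GN

/-- fine covers of multiplicity at most `n + 1` -/
def Fine (n : ℕ) (X : Type) [MetricSpace X] : Prop :=
  ∀ δ : ℝ, 0 < δ → ∃ (Ω : Type) (W : X → Ω → ℝ), (∀ ω, Continuous fun x => W x ω) ∧
    (∀ x ω, 0 ≤ W x ω) ∧ (∀ x, ∃ ω, 0 < W x ω) ∧
    (∀ x, (Function.support (W x)).encard ≤ (n + 1 : ℕ)) ∧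
    ∀ x x' ω, 0 < W x ω → 0 < W x' ω → dist x x' ≤ δ

variable {X : Type} [MetricSpace X] [CompactSpace X] {n : ℕ}

/-- finite partitions of unity -/
theorem Fine.pou (h : Fine n X) {N : ℕ} (hN : n ≤ N) {δ : ℝ} (hδ : 0 < δ) :
    ∃ (M : ℕ) (z : Fin M → X) (i : C(X, Sk N M)), (∀ x, (Function.support (i x).1).ncard ≤ n + 1) ∧
      ∀ x s, (i x).1 s ≠ 0 → dist (z s) x ≤ δ := by
  classical
  obtain ⟨Ω, W, w1, w2, w3, w4, w5⟩ := h δ hδ
  choose w hw using w3
  obtain ⟨t, ht⟩ := isCompact_univ.elim_finite_subcover (fun x => {y | 0 < W y (w x)})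
    (fun x => isOpen_lt continuous_const (w1 _)) fun x _ => mem_iUnion.2 ⟨x, hw x⟩
  have h3 : ∀ s : t.image w, ∃ x, 0 < W x s := fun s => by
    obtain ⟨x, -, hx⟩ := Finset.mem_image.1 s.2
    exact ⟨x, hx ▸ hw x⟩
  choose z hz using h3
  let o : Fin (t.image w).card → Ω := fun s => (t.image w).equivFin.symm s
  have o1 : Function.Injective o := Subtype.val_injective.comp (Equiv.injective _)
  have s0 : ∀ x, 0 < ∑ s, W x (o s) := fun x => by
    obtain ⟨y, hy, hx⟩ := mem_iUnion₂.1 (ht (mem_univ x))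
    exact Finset.sum_pos' (fun s _ => w2 _ _) ⟨(t.image w).equivFin ⟨w y, Finset.mem_image_of_mem w hy⟩,
      Finset.mem_univ _, by simpa [o] using hx⟩
  have s2 : ∀ x, (Function.support fun s => W x (o s) / ∑ s, W x (o s)).ncard ≤ n + 1 := fun x => by
    refine ENat.toNat_le_of_le_natCast (le_trans ?_ (w4 x))
    rw [← o1.encard_image]
    refine encard_le_encard ?_
    rintro _ ⟨s, hs, rfl⟩ h
    exact hs (by simp [h])
  have s1 : ∀ x, (fun s => W x (o s) / ∑ s, W x (o s)) ∈ Sk N _ := fun x =>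
    ⟨⟨fun s => div_nonneg (w2 _ _) (s0 x).le, by rw [← Finset.sum_div, div_self (s0 x).ne']⟩,
      (s2 x).trans (by omega)⟩
  exact ⟨_, fun s => z ((t.image w).equivFin.symm s), ⟨fun x => ⟨_, s1 x⟩,
    Continuous.subtype_mk (continuous_pi fun s => (w1 _).div (continuous_finsetSum _ fun s _ => w1 _)
      fun x => (s0 x).ne') _⟩, s2, fun x s hs => w5 _ _ _ (hz _)
        ((w2 _ _).lt_of_ne' (div_ne_zero_iff.1 hs).1)⟩

omit [CompactSpace X] in
theorem fold_near {ι : Type} {sg : X → X → I → X} (h0 : ∀ x y, sg x y 0 = x)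
    (h1 : ∀ x y, sg x y 1 = y) {e : ℕ → ℝ} (he : Antitone e) {c : X}
    (hs : ∀ i x y t, dist x c ≤ e (i + 1) → dist y c ≤ e (i + 1) → dist (sg x y t) c ≤ e i)
    (z : ι → X) (τ : ι → I) (b : X) {J : ℕ} (hz : ∀ s, τ s ≠ 0 → dist (z s) c ≤ e J) (L : List ι) :
    (∃ s ∈ L, τ s = 1) → ∀ i, i + (L.filter fun s => τ s ≠ 0).length ≤ J →
      dist (L.foldr (fun s b => sg b (z s) (τ s)) b) c ≤ e i := by
  induction L with
  | nil => simp
  | cons s L ih =>
    intro h i hi
    rw [List.foldr_cons]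
    by_cases a : τ s = 1
    · rw [a, h1]
      exact (hz s (by rw [a]; exact one_ne_zero)).trans (he (by omega))
    have h' : ∃ s ∈ L, τ s = 1 := by simpa [a] using h
    by_cases a0 : τ s = 0
    · rw [a0, h0]
      exact ih h' i (by simpa [a0] using hi)
    · rw [List.filter_cons_of_pos (by simpa using a0), List.length_cons] at hi
      exact hs _ _ _ _ (ih h' _ (by omega)) ((hz s a0).trans (he (by omega)))

theorem Fine.transfer [Nonempty X] (h : Fine n X) {N : ℕ} (hN : n ≤ N) {sg : X → X → I → X}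
    (hc : Continuous fun p : X × X × I => sg p.1 p.2.1 p.2.2) (h0 : ∀ x y, sg x y 0 = x)
    (h1 : ∀ x y, sg x y 1 = y) (h2 : ∀ x t, sg x x t = x) : IsTransfer N X := by
  classical
  let H : ∀ f g : C(X, X), f.Homotopy g := fun f g =>
    ⟨⟨fun p => sg (f p.2) (g p.2) p.1, hc.comp (f := fun p : I × X => (f p.2, g p.2, p.1))
      (by fun_prop)⟩, fun x => h0 _ _, fun x => h1 _ _⟩
  refine ⟨inferInstance, (contractible_iff_id_nullhomotopic X).2 ⟨Classical.arbitrary X, ⟨H _ _⟩⟩,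
    fun δ hδ => ?_⟩
  have u : ∀ ε : Ioi (0 : ℝ), ∃ d : Ioi (0 : ℝ), d ≤ ε ∧ ∀ c x y t, dist x c ≤ d → dist y c ≤ d →
      dist (sg x y t) c ≤ ε := fun ε => by
    obtain ⟨d, d0, hd⟩ := Metric.uniformContinuous_iff_le.1
      (CompactSpace.uniformContinuous_of_continuous hc) ε ε.2
    refine ⟨⟨min d ε, lt_min d0 ε.2⟩, min_le_right d ε, fun c x y t a b => ?_⟩
    have := @hd (x, y, t) (c, c, t) (max_le (a.trans (min_le_left _ _))
      (max_le (b.trans (min_le_left _ _)) (by rw [dist_self]; exact d0.le)))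
    rwa [h2] at this
  choose m m1 m2 using u
  let e : ℕ → ℝ := fun j => (m^[j] ⟨δ, hδ⟩ : Ioi (0 : ℝ))
  have e1 : ∀ j, e (j + 1) = m (m^[j] ⟨δ, hδ⟩) := fun j => by
    simp only [e, Function.iterate_succ_apply']
  have he : Antitone e := antitone_nat_of_succ_le fun j => by rw [e1]; exact m1 _
  have hs : ∀ c i x y t, dist x c ≤ e (i + 1) → dist y c ≤ e (i + 1) → dist (sg x y t) c ≤ e i :=
    fun c i x y t a b => m2 _ c x y t (e1 i ▸ a) (e1 i ▸ b)
  obtain ⟨M, z, i, -, i2⟩ := h.pou hN (m^[N + 2] ⟨δ, hδ⟩).2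
  let τ : Sk N M → Fin M → I := fun μ s => projIcc 0 1 zero_le_one ((N + 1) * μ.1 s)
  have pc : ∀ L : List (Fin M), Continuous fun μ : Sk N M =>
      L.foldr (fun s b => sg b (z s) (τ μ s)) (Classical.arbitrary X) := fun L => by
    induction L with
    | nil => exact continuous_const
    | cons s L ih =>
      exact hc.comp (ih.prodMk (continuous_const.prodMk ((continuous_projIcc (h := zero_le_one)).comp
        (continuous_const.mul ((continuous_apply s).comp continuous_subtype_val)))))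
  have t0 : ∀ μ s, τ μ s ≠ 0 → μ.1 s ≠ 0 := fun μ s a b => a (by simp [τ, b])
  refine ⟨M, i, ⟨_, pc (List.finRange M)⟩, H _ _, fun t x => hs x 0 _ _ t ?_
    ((dist_self x).trans_le (le_of_lt (m^[1] ⟨δ, hδ⟩).2))⟩
  have c1 : ((Finset.univ.filter fun s => (i x).1 s ≠ 0).card : ℝ) ≤ N + 1 := by
    have := (i x).2.2
    rw [← ncard_coe_finset, Finset.coe_filter]
    exact_mod_cast this.trans_eq' (by simp [Function.support])
  refine fold_near h0 h1 he (hs x) z (τ (i x)) _ (J := N + 2) (fun s a => i2 x s (t0 _ s a)) _ ?_ _ ?_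
  · by_contra a
    have b : ∀ s, (N + 1 : ℝ) * (i x).1 s < 1 := fun s => not_le.1 fun k =>
      a ⟨s, List.mem_finRange s, projIcc_of_right_le _ k⟩
    have c := (i x).2.1.2
    rw [← Finset.sum_filter_ne_zero] at c
    have d := Finset.sum_lt_sum_of_nonempty (s := Finset.univ.filter fun s => (i x).1 s ≠ 0)
      (Finset.nonempty_of_sum_ne_zero (c ▸ one_ne_zero)) fun s _ => b s
    rw [← Finset.mul_sum, c, Finset.sum_const, nsmul_eq_mul] at d
    linarith
  · rw [← List.toFinset_card_of_nodup ((List.nodup_finRange M).filter _)]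
    have : (Finset.univ.filter fun s => (i x).1 s ≠ 0).card ≤ N + 1 := by exact_mod_cast c1
    refine le_trans (Nat.add_le_add_left ((Finset.card_le_card fun s a => ?_).trans this) _) (by omega)
    simpa using t0 _ s (by simpa using a)

/-- homotopy transfer reducibility from positions that need not be continuous -/
theorem htr_of_pos (G : Type) [Group G] (Good : Subgroup G → Prop) (n N : ℕ)
    (hF : ∀ H, Good H → ∀ g : G, Good (H.map (MulAut.conj g).toMonoidHom))
    (h : ∀ (S : Finset G) (k : ℕ) (η : ℝ), 0 < η →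
      ∃ (X : Type) (_ : MetricSpace X) (_ : CompactSpace X) (Γ : List (G × I) → G → X → X)
        (Ω : Type) (_ : MulAction G Ω) (f : X → Ω → ℝ), Fine n X ∧ (∀ N, n ≤ N → IsTransfer N X) ∧
        Coherent Γ ∧ (∀ x, WL.Pos Good N (f x)) ∧
        (∃ δ > 0, ∀ x y, dist x y ≤ δ → WL.Cl η (1 : G) (f x) (f y)) ∧
        ∀ (l : List (G × I)) (g : G) (x : X), l.length ≤ k → (∀ p ∈ l, p.1 ∈ S) →
          g ∈ S → WL.Cl η ((l.map Prod.fst).prod * g) (f x) (f (Γ l g x))) :
    HTR G {H | Good H} := by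
  classical
  have N0 : (0 : ℝ) < N + 1 := by positivity
  refine htr_of_weights G _ ((n + 1) * (N + 1)) (c := 1 / (2 * (N + 1))) (by positivity) hF
    fun S k η hη => ?_
  obtain ⟨X, _, _, Γ, Ω, _, f, h1, h2, h3, h4, ⟨δ, δ0, h5⟩, h6⟩ :=
    h S k (min (η / 3) (1 / (2 * (N + 1)))) (lt_min (by positivity) (by positivity))
  obtain ⟨M, z, i, i1, i2⟩ := h1.pou le_rfl δ0
  have fs : ∀ x, (Function.support (f x)).Finite := fun x => finite_of_encard_le_coe (h4 x).2.2.1
  have sp : ∀ x ω, ∑ s, (i x).1 s * f (z s) ω ≠ 0 → ∃ s, (i x).1 s ≠ 0 ∧ f (z s) ω ≠ 0 :=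
    fun x ω a => by
      obtain ⟨s, -, b⟩ := Finset.exists_ne_zero_of_sum_ne_zero a
      exact ⟨s, mul_ne_zero_iff.1 b⟩
  have nr : ∀ x ω, |∑ s, (i x).1 s * f (z s) ω - f x ω| ≤ min (η / 3) (1 / (2 * (N + 1))) :=
    fun x ω => by
      have a : ∀ r : ℝ, r = ∑ s, (i x).1 s * r := fun r => by
        rw [← Finset.sum_mul, (i x).2.1.2, one_mul]
      rw [a (f x ω), ← Finset.sum_sub_distrib, a (min _ _)]
      refine (Finset.abs_sum_le_sum_abs _ _).trans (Finset.sum_le_sum fun s _ => ?_)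
      rw [← mul_sub, abs_mul, abs_of_nonneg ((i x).2.1.1 s)]
      by_cases b : (i x).1 s = 0
      · simp [b]
      · have := h5 x (z s) (by rw [dist_comm]; exact i2 x s b) ω
        rw [one_smul] at this
        exact mul_le_mul_of_nonneg_left this ((i x).2.1.1 s)
  refine ⟨X, inferInstance, Γ, Ω, inferInstance, ⋃ s, Function.support (f (z s)),
    fun x ω => ∑ s, (i x).1 s * f (z s) ω, h2 _ (by nlinarith), h3, finite_iUnion fun s => fs _,
    fun ω a => ?_, fun ω => continuous_finsetSum _ fun s _ => ((continuous_apply s).comp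
      (continuous_subtype_val.comp i.continuous)).mul continuous_const,
    fun x ω => Finset.sum_nonneg fun s _ => mul_nonneg ((i x).2.1.1 s) ((h4 _).1 ω).1,
    fun x ω a => ?_, fun x => ?_, fun x => ?_, fun l g x a b c ω => ?_⟩
  · obtain ⟨s, a⟩ := mem_iUnion.1 a
    refine (h4 (z s)).2.2.2 {ω} _ (singleton_nonempty ω) (singleton_subset_iff.2 a) ?_
    rintro g hg _ rfl
    exact hg
  · obtain ⟨s, -, b⟩ := sp x ω a
    exact mem_iUnion.2 ⟨s, b⟩
  · have a : (Function.support fun ω => ∑ s, (i x).1 s * f (z s) ω) ⊆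
        ((toFinite (Function.support (i x).1)).toFinset.biUnion fun s => (fs (z s)).toFinset :
          Finset Ω) := fun ω a => by
      obtain ⟨s, b, c⟩ := sp x ω a
      exact Finset.mem_coe.2 (Finset.mem_biUnion.2 ⟨s, (Finite.mem_toFinset _).2 b,
        (Finite.mem_toFinset _).2 c⟩)
    refine (ncard_le_ncard a (Finset.finite_toSet _)).trans ?_
    rw [ncard_coe_finset]
    refine (Finset.card_biUnion_le_card_mul _ _ (N + 1) fun s _ => ?_).trans
      ((Nat.mul_le_mul_right _ ?_).trans (Nat.le_succ _))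
    · rw [← ncard_eq_toFinset_card _ (fs _)]
      exact ENat.toNat_le_of_le_natCast (h4 _).2.2.1
    · rw [← ncard_eq_toFinset_card]
      exact i1 x
  · obtain ⟨ω, a⟩ := (h4 x).2.1
    refine ⟨ω, ?_⟩
    have b := (abs_le.1 ((nr x ω).trans (min_le_right _ _))).1
    rw [← div_le_iff₀' N0] at a
    have c : (1 : ℝ) / (N + 1) = 1 / (2 * (N + 1)) + 1 / (2 * (N + 1)) := by field_simp; ring
    linarith
  · have a1 := abs_le.1 ((nr x ω).trans (min_le_left _ _))
    have a2 := abs_le.1 ((nr (Γ l g x) (((l.map Prod.fst).prod * g) • ω)).trans (min_le_left _ _))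
    have a3 := abs_le.1 ((h6 l g x a b c ω).trans (min_le_left _ _))
    exact abs_le.2 ⟨by linarith, by linarith⟩

end Pool.Agent.Work.MP_9d1ffa_al.Hx
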