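import Pool.Agent.Work.MP_9d1ffa_al.Hx.Kc
import Pool.Agent.Work.MP_9d1ffa_al.Hx.Coh
import Pool.Agent.Work.MP_9d1ffa_al.Hx.Tr
import Pool.Agent.Work.MP_9d1ffa_al.Ga.Zc
import Pool.Agent.Work.MP_9d1ffa_al.GN.Act

/-! Homotopy transfer reducibility for actions on CAT(0) spaces with samples. -/

namespace Pool.Agent.Work.MP_9d1ffa_al.Hx

open unitInterval Set Px Gd Ga Gb

variable {G X Sm : Type} [Group G] [MetricSpace X] [MulAction G X]

/-- the compact piece -/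
theorem exists_K [CompleteSpace X] (h : Cat0 X)
    (iso : ∀ (g : G) (x y : X), dist (g • x) (g • y) = dist x y) (o : X) {a κ T : ℝ} {S : Finset G}
    (a0 : 0 < a) (a1 : a ≤ 1) (h1 : (1 : G) ∈ S) (hκ : ∀ g ∈ S, dist (g • o) o ≤ κ) (T0 : 0 ≤ T)
    (hT : (1 - a) * (T + κ) ≤ T) : ∃ K : Set X, IsCompact K ∧ o ∈ K ∧ (∀ x ∈ K, dist x o ≤ T) ∧
      (∀ g ∈ S, ∀ x ∈ K, jn h (g • x) o a ∈ K) ∧ (∀ x ∈ K, ∀ y ∈ K, ∀ t, bs h o a x y t ∈ K) ∧
      ∀ m c : ℕ, 0 < m → 1 / (m : ℝ) ≤ a → T ≤ m → κ ≤ m → S.card ≤ c → ∃ R, Cov o R (4 / m)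
        (((c + 1) * (12 * m ^ 4 + 1)) ^ (2 ^ (1 + 2)) ^ m ^ 3) K := by
  have ha : a ∈ Icc (0 : ℝ) 1 := ⟨a0.le, a1⟩
  refine ⟨closure {z | Kp h o a S z}, (TotallyBounded.closure ?_).isCompact_of_isClosed
    isClosed_closure, subset_closure Kp.base, fun x hx => closure_minimal
      (t := Metric.closedBall o T) (fun z hz => Kp.ball iso ha hκ T0 hT hz)
      Metric.isClosed_closedBall hx, fun g hg x hx => ?_, fun x hx y hy t => ?_,
    fun m c m0 m1 m2 m3 hc => ⟨_, cov_closure (Kp.cov iso ha h1 hκ T0 hT m0 m1 m2 m3 hc)⟩⟩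
  · refine Metric.totallyBounded_iff.2 fun ε hε => ?_
    obtain ⟨m, hm⟩ := exists_nat_gt (1 / a + T + |κ| + 4 / ε)
    have b1 : 0 < 1 / a := by positivity
    have b2 : 0 < 4 / ε := by positivity
    have b3 := abs_nonneg κ
    have m0 : (0 : ℝ) < m := by linarith
    obtain ⟨F, -, -, f⟩ := Kp.cov (h := h) iso ha h1 hκ T0 hT (m := m) (by exact_mod_cast m0)
      ((one_div_le m0 a0).2 (by linarith)) (by linarith) (by linarith [le_abs_self κ]) le_rfl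
    refine ⟨F, F.finite_toSet, fun z hz => ?_⟩
    obtain ⟨y, hy, e⟩ := f z hz
    refine mem_biUnion hy (lt_of_le_of_lt e ?_)
    rw [div_lt_iff₀ m0, ← div_lt_iff₀' hε]
    linarith
  · exact map_mem_closure (f := fun x => jn h (g • x) o a) ((jn_bi h).cont
      (Isometry.of_dist_eq (iso g)).continuous continuous_const continuous_const fun _ => ha) hx
      fun z hz => Kp.act g z hg hz
  · exact map_mem_closure₂ (f := fun x y => bs h o a x y t) ((bs_cont h ha).comp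
      (f := fun p : X × X => (p.1, p.2, t)) (by fun_prop)) hx hy fun x hx y hy => Kp.seg x y t hx hy

/-- the control of the coherent action -/
theorem ctl_K (h : Cat0 X) (iso : ∀ (g : G) (x y : X), dist (g • x) (g • y) = dist x y) (o : X)
    {a κ : ℝ} (ha : a ∈ Icc (0 : ℝ) 1) {K : Set X} {sg : K → K → I → K} {φ : G → K → K}
    (hs : ∀ x y t, (sg x y t).1 = bs h o a x y t) (hφ1 : ∀ x, φ 1 x = x) {ℓ : G → ℕ∞}
    (hℓ : ∀ g h, ℓ (g * h) ≤ ℓ g + ℓ h) {c : ℕ∞} (κ0 : 0 ≤ κ)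
    (hκ : ∀ g, ℓ g ≤ c → dist (g • o) o ≤ κ)
    (hφ : ∀ g x, g ≠ 1 → ℓ g ≤ c → (φ g x).1 = jn h (g • x.1) o a) (k : ℕ) (l : List (G × I))
    (g : G) (y : K) (hl : l.length ≤ k) (hc : sl ℓ l g ≤ c) :
    ∃ s ∈ Icc (0 : ℝ) 1, s ≤ (ix k + 1) * a ∧ dist (Gam sg φ l g y).1 (pr l g • jn h y.1 o s) ≤
      (2 * ix k + 1) * ((ix k + 1) * a * κ) := by
  obtain ⟨e, he⟩ : ∃ e, e = (ix k + 1) * a * κ := ⟨_, rfl⟩
  have a0 := ha.1
  have e0 : 0 ≤ e := by rw [he]; positivity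
  have i0 : (0 : ℝ) ≤ ix k := Nat.cast_nonneg _
  have mv : ∀ g w, ℓ g ≤ c → ∀ s ∈ Icc (0 : ℝ) 1, s ≤ (ix k + 1) * a →
      dist (jn h (g • w) o s) (g • jn h w o s) ≤ e := fun g w hg s s1 s2 =>
    (rho_smul h iso g w s1).trans (he ▸ mul_le_mul s2 (hκ g hg) dist_nonneg (by positivity))
  have r1 : ∀ x y, ∀ s ∈ Icc (0 : ℝ) 1, dist (jn h x o s) (jn h y o s) ≤ dist x y :=
    fun x y s s1 => (rho_lip h x y o s1).trans
      (mul_le_of_le_one_left dist_nonneg (by linarith [s1.1]))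
  have o1 : (1 : ℝ) ∈ Icc (0 : ℝ) 1 := ⟨zero_le_one, le_rfl⟩
  rw [← he]
  refine ctl (seg := sg) (φ := φ) (k := ix k) (R := fun j g y z => ∃ s ∈ Icc (0 : ℝ) 1,
    s ≤ (j + 1) * a ∧ dist z.1 (g • jn h y.1 o s) ≤ (2 * j + 1) * e)
    (fun x y => Subtype.ext (by rw [hs, bs_zero h a0]))
    (fun x y => Subtype.ext (by rw [hs, bs_one h a0])) hφ1 hℓ (fun g y hg => ?_) ?_ ?_ ?_ k le_rfl
    l g y hl hc
  · by_cases e1 : g = 1
    · exact ⟨0, ⟨le_rfl, zero_le_one⟩, by positivity, by simpa [e1, hφ1, jn_zero] using e0⟩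
    · exact ⟨a, ha, by simp, by simpa [hφ g y e1 hg] using mv g y hg a ha (by nlinarith)⟩
  · rintro j j' g y z hj ⟨s, s1, s2, s3⟩
    have : (j : ℝ) ≤ j' := by exact_mod_cast hj
    exact ⟨s, s1, s2.trans (by gcongr), s3.trans (by gcongr)⟩
  · rintro j g y z z' t - hg ⟨s, s1, s2, s3⟩ ⟨s', s4, s5, s6⟩
    have b := bt_mem ha z.1 z'.1 t
    have b1 : bt a z.1 z'.1 t ≤ a := min_le_left _ _
    have u := mix_mem s1 s4 t.2
    have u1 : (1 - t) * s + t * s' ≤ (j + 1) * a := by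
      nlinarith [mul_le_mul_of_nonneg_left s2 (sub_nonneg.2 t.2.2),
        mul_le_mul_of_nonneg_left s5 t.2.1]
    refine ⟨_, mix_mem u o1 b, ?_, ?_⟩
    · push_cast
      nlinarith [mul_nonneg b.1 u.1]
    rw [← rho_rho h _ o u b, hs, bs]
    refine (dist_triangle _ (jn h (g • jn h y.1 o ((1 - t) * s + t * s')) o _) _).trans
      ((add_le_add ((r1 _ _ _ b).trans ?_) (mv g _ hg _ b (by nlinarith))).trans
        (show (2 * j + 1) * e + e ≤ _ by push_cast; nlinarith))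
    rw [← jn_jn h _ o s1 s4 t.2, jn_smul h iso g _ _ t.2]
    exact (jn_lip h _ _ _ _ t.2).trans (max_le s3 s6)
  · rintro j g g' y z' z hj hg ⟨s, s1, s2, s3⟩ ⟨s', s4, s5, s6⟩
    have : (j : ℝ) ≤ ix k := by exact_mod_cast (by omega : j ≤ ix k)
    refine ⟨_, mix_mem s1 o1 s4, ?_, ?_⟩
    · push_cast
      nlinarith [mul_nonneg s1.1 s4.1]
    rw [← rho_rho h _ o s1 s4, mul_smul]
    have c1 := r1 z'.1 (g' • jn h y.1 o s) s' s4
    have c2 := mv g' (jn h y.1 o s) hg s' s4 (s5.trans (by gcongr))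
    have c3 := dist_triangle (jn h z'.1 o s') (jn h (g' • jn h y.1 o s) o s')
      (g' • jn h (jn h y.1 o s) o s')
    have c4 := dist_triangle z.1 (g • jn h z'.1 o s') (g • g' • jn h (jn h y.1 o s) o s')
    rw [iso] at c4
    push_cast
    linarith

variable [MulAction G Sm]

theorem fine_K (A : Geo G X Sm) (K : Set X) : Fine A.n K := fun δ hδ => by
  obtain ⟨Q, hQ⟩ := exists_nat_one_div_lt hδ
  refine ⟨Sm, fun x c => A.mg (Q + 1) c x.1, fun c => Continuous.comp ?_ continuous_subtype_val,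
    fun x c => A.mg_nonneg _ _ _, fun x => ?_, fun x => le_trans (encard_le_encard fun c hc =>
      (A.mg_nonneg _ _ _).lt_of_ne' hc) (A.mg_card Q.succ_pos x.1), fun x y c hx hy => ?_⟩
  · refine (LipschitzWith.of_dist_le_mul (K := 1) fun y y' => ?_).continuous
    simpa [Real.dist_eq] using A.mg_lip (Q + 1) c y y'
  · obtain ⟨c, hc⟩ := A.mg_big Q.succ_pos x.1
    exact ⟨c, lt_of_lt_of_le (by positivity) hc⟩
  · have := A.mg_dist Q.succ_pos hx hy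
    push_cast at this
    exact this.trans hQ.le

theorem lab_K (A : Geo G X Sm) {K : Set X} {R r : ℝ} {N m Q : ℕ} (hK : Cov A.o R r N K) (r0 : 0 ≤ r)
    (hm : 0 < m) (hQ : 0 < Q) : {c | ∃ y ∈ K, ∃ p, A.Str m p ∧ p 0 = y ∧ p m = A.o ∧
      ∃ j ≤ m, r < A.mg Q c (p j)}.encard ≤ (N * (m + 1) * (A.n + 1) : ℕ) := by
  obtain ⟨F, f1, -, f3⟩ := hK
  refine (encard_le_encard (t := ⋃ p ∈ F ×ˢ Finset.range (m + 1),
    {c | 0 < A.mg Q c (A.σ m p.1 p.2)}) ?_).trans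
    ((encard_un _ _ fun p _ => A.mg_card hQ _).trans (Nat.cast_le.2 (Nat.mul_le_mul_right _ ?_)))
  · rintro c ⟨y, hy, p, p1, p2, p3, j, j1, j2⟩
    obtain ⟨f, hf, k⟩ := f3 y hy
    obtain ⟨c1, c2, c3⟩ := A.σ_spec hm f
    have c4 := A.cvx' p1 c1 (α := r) (by rwa [p2, c2]) (by rwa [p3, c3, dist_self]) j1
    have c5 := (abs_le.1 (A.mg_lip Q c (p j) (A.σ m f j))).2
    exact mem_biUnion (x := (f, j)) (Finset.mem_product.2 ⟨hf, Finset.mem_range.2 (by omega)⟩)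
      (show 0 < A.mg Q c (A.σ m f j) by linarith)
  · rw [Finset.card_product, Finset.card_range]
    exact Nat.mul_le_mul_right _ f1

theorem htr_cat [CompleteSpace X] (h : Cat0 X) (A : Geo G X Sm) (hA : A.Str = Str)
    {Good : Subgroup G → Prop} (hG : A.Gd Good)
    (hF : ∀ H, Good H → ∀ g : G, Good (H.map (MulAut.conj g).toMonoidHom)) :
    GN.HTR G {H | Good H} := by
  classical
  refine htr_of_pos G Good A.n (5 * A.D + A.n + 7) hF fun S0 k η hη => ?_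
  obtain ⟨E, hE⟩ := exists_nat_gt (4 / η)
  have E0 : (0 : ℝ) < E := lt_trans (by positivity) hE
  have E1 : 4 / (E : ℝ) ≤ η := by
    rw [div_lt_iff₀ hη] at hE
    rw [div_le_iff₀ E0]
    linarith
  obtain ⟨ℓ, l1, l2, l3⟩ := GN.Act_len (insert 1 S0)
  obtain ⟨S, hS⟩ : ∃ S : Finset G, ∀ g, g ∈ S ↔ ℓ g ≤ (k + 1 : ℕ) :=
    ⟨(l3 (k + 1)).toFinset, fun g => Finite.mem_toFinset _⟩
  have s0 : 1 ∈ S := (hS 1).2 ((l2 1 (Finset.mem_insert_self _ _)).trans (by simp))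
  obtain ⟨κ0, k1, k2⟩ : ∃ κ : ℕ, 1 ≤ κ ∧ ∀ g ∈ S, dist (g • A.o) A.o ≤ κ :=
    ⟨1 + ∑ g ∈ S, ⌈dist (g • A.o) A.o⌉₊, Nat.le_add_right _ _, fun g hg =>
      (Nat.le_ceil _).trans (Nat.cast_le.2 ((Finset.single_le_sum
        (f := fun g => ⌈dist (g • A.o) A.o⌉₊) (fun _ _ => Nat.zero_le _) hg).trans
          (Nat.le_add_left _ _)))⟩
  obtain ⟨κ, k3, k4⟩ : ∃ κ : ℕ, S.card ≤ κ ∧ (ix k + 1) * κ0 ≤ κ :=
    ⟨_, Nat.le_add_right _ _, Nat.le_add_left _ _⟩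
  have p : El fun Y => 4 * Y ^ 3 := (El.const 4).mul (El.id.pow (El.const 3))
  obtain ⟨Y, hY, hd⟩ := hG.data (κ := κ) (E := E) (by exact_mod_cast E0) (Fs := fun Y _ =>
    ((κ + 1) * (12 * (4 * Y ^ 3) ^ 4 + 1)) ^ (2 ^ (1 + 2)) ^ (4 * Y ^ 3) ^ 3 * (Y ^ 4 + 1) * (A.n + 1))
    fun _ => ((((El.const _).mul (((El.const _).mul (p.pow (El.const 4))).add (El.const 1))).pow
      ((El.const _).pow (p.pow (El.const 3)))).mul ((El.id.pow (El.const 4)).add (El.const 1))).mul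
        (El.const _)
  have i0 : (0 : ℝ) ≤ ix k := Nat.cast_nonneg _
  have b1 : (1 : ℝ) ≤ κ0 := by exact_mod_cast k1
  have b2 : ((ix k : ℝ) + 1) * κ0 ≤ κ := by exact_mod_cast k4
  have b3 : 2 * (κ : ℝ) + 2 ≤ Y := by exact_mod_cast hY
  have b4 : (κ0 : ℝ) ≤ κ := by nlinarith
  have y1 : (1 : ℝ) ≤ Y := by linarith
  have y0 : (0 : ℝ) < Y := by linarith
  have y3 : (Y : ℝ) ≤ Y ^ 3 := by simpa using pow_le_pow_right₀ y1 (by omega : 1 ≤ 3)
  have Y0 : 0 < Y := by omega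
  have a0 : (0 : ℝ) < κ0 / Y ^ 3 := by positivity
  have a1 : (κ0 : ℝ) / Y ^ 3 ≤ 1 := (div_le_one (by positivity)).2 (by linarith)
  obtain ⟨K, K1, K2, K3, K4, K5, K6⟩ := exists_K h A.iso A.o (T := Y ^ 3) a0 a1 s0 k2 (by positivity) (by
    have : (κ0 : ℝ) / Y ^ 3 * Y ^ 3 = κ0 := by field_simp
    nlinarith)
  obtain ⟨R, K7⟩ := K6 (4 * Y ^ 3) κ (by positivity) (by push_cast; gcongr; linarith [pow_pos y0 3])
    (by push_cast; linarith) (by push_cast; linarith) k3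
  let P : Par A := ⟨S, κ, Y, K, _, s0, k3, fun g hg => (k2 g hg).trans b4, hY,
    fun y hy => by exact_mod_cast K3 y hy, fun Q hQ => lab_K A (K7.mono le_rfl (r' := 1 / Y) (by
      push_cast
      rw [div_le_div_iff₀ (by positivity) y0]
      linarith) le_rfl subset_rfl) (by positivity) (by positivity) hQ⟩
  obtain ⟨f, f1, f2⟩ := hd P rfl rfl rfl
  have := isCompact_iff_compactSpace.1 K1
  have : Nonempty K := ⟨⟨_, K2⟩⟩
  let sg : K → K → I → K := fun x y t => ⟨_, K5 _ x.2 _ y.2 t⟩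
  let φ : G → K → K := fun g x => if e : g ≠ 1 ∧ g ∈ S then ⟨_, K4 g e.2 _ x.2⟩ else x
  have c1 : Continuous fun p : K × K × I => sg p.1 p.2.1 p.2.2 := Continuous.subtype_mk
    ((bs_cont h ⟨a0.le, a1⟩).comp (f := fun p : K × K × I => (p.1.1, p.2.1.1, p.2.2)) (by fun_prop)) _
  have c2 : ∀ x y, sg x y 0 = x := fun x y => Subtype.ext (bs_zero h a0.le _ _)
  have c3 : ∀ x y, sg x y 1 = y := fun x y => Subtype.ext (bs_one h a0.le _ _)
  have c4 : ∀ x, φ 1 x = x := fun x => dif_neg fun e => e.1 rfl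
  refine ⟨K, inferInstance, inferInstance, Gam sg φ, _, inferInstance, f, fine_K A K, fun N hN =>
    (fine_K A K).transfer hN c1 c2 c3 fun x t => Subtype.ext (bs_self h a0.le _ _),
    gam_coh c1 c2 c3 (fun g => ?_) c4, f1, ⟨6 / Y, by positivity, fun x y e ω =>
      (f2 1 s0 x y (Par.rel_near e) ω).trans E1⟩, fun l g x hl hp hg ω => ?_⟩
  · by_cases e : g ≠ 1 ∧ g ∈ S
    · simp only [φ, dif_pos e]
      exact Continuous.subtype_mk ((jn_bi h).cont ((A.smul_cont g).comp continuous_subtype_val)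
        continuous_const continuous_const fun _ => ⟨a0.le, a1⟩) _
    · simp only [φ, dif_neg e]
      exact continuous_id
  have d1 : sl ℓ l g ≤ (k + 1 : ℕ) := by
    rw [sl, Nat.cast_add, Nat.cast_one]
    refine add_le_add ((List.sum_le_card_nsmul _ 1 ?_).trans (by simpa using hl))
      (l2 g (Finset.mem_insert_of_mem hg))
    simp only [List.forall_mem_map]
    exact fun p a => l2 _ (Finset.mem_insert_of_mem (hp p a))
  obtain ⟨s, s1, s2, s3⟩ := ctl_K h A.iso A.o ⟨a0.le, a1⟩ (sg := sg) (φ := φ) (fun _ _ _ => rfl) c4 l1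
    (κ := κ0) (by linarith) (fun g e => k2 g ((hS g).2 e))
    (fun g x e e' => by simp only [φ, dif_pos (And.intro e ((hS g).2 e'))]) k l g x hl d1
  refine (f2 _ ((hS _).2 ((pr_le l1 l g).trans d1)) x _ ?_ ω).trans E1
  have y4 : (0 : ℝ) < Y ^ 4 := by positivity
  have u0 : 0 ≤ s * Y ^ 4 := mul_nonneg s1.1 y4.le
  have u1 : ⌊s * Y ^ 4⌋₊ ≤ Y ^ 4 := Nat.floor_le_of_le (by push_cast; nlinarith [s1.2])
  obtain ⟨e1, e2, e3⟩ := A.σ_spec P.m_pos x.1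
  rw [hA] at e1
  refine ⟨⌊s * Y ^ 4⌋₊, Nat.floor_le_of_le ?_, ?_⟩
  · have : ((ix k : ℝ) + 1) * (κ0 / Y ^ 3) * Y ^ 4 = (ix k + 1) * κ0 * Y := by field_simp
    have := mul_le_mul_of_nonneg_right s2 y4.le
    have := mul_le_mul_of_nonneg_right b2 y0.le
    simp only [Par.i, P]
    push_cast
    nlinarith
  rw [Par.σ, e1.eq_jn h u1, e2, e3]
  refine (dist_triangle _ _ _).trans ((add_le_add (s3.trans ?_) ?_).trans_eq
    (show (5 / Y + 1 / Y : ℝ) = 6 / Y by ring))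
  · rw [le_div_iff₀ y0]
    have e : (2 * ix k + 1) * ((ix k + 1) * (κ0 / Y ^ 3) * κ0) * (Y : ℝ) =
      (2 * ix k + 1) * κ0 * ((ix k + 1) * κ0) / Y ^ 2 := by field_simp
    rw [e, div_le_iff₀ (by positivity)]
    calc _ ≤ (2 * κ : ℝ) * κ := mul_le_mul (by nlinarith) b2 (by positivity) (by linarith)
      _ ≤ _ := by nlinarith
  · rw [A.iso, jn_tim h _ _ s1 (frac_mem (W := P.m) u1)]
    have e : s - (⌊s * Y ^ 4⌋₊ : ℝ) / (P.m : ℕ) = (s * Y ^ 4 - ⌊s * Y ^ 4⌋₊) / Y ^ 4 := by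
      simp only [Par.m, P]
      push_cast
      field_simp
    rw [e, abs_div, abs_of_pos y4]
    calc _ ≤ 1 / Y ^ 4 * (Y : ℝ) ^ 3 := mul_le_mul (div_le_div_of_nonneg_right (abs_le.2
          ⟨by linarith [Nat.floor_le u0], by linarith [Nat.lt_floor_add_one (s * Y ^ 4)]⟩) y4.le)
          (K3 _ x.2) dist_nonneg (by positivity)
      _ = _ := by field_simp

end Pool.Agent.Work.MP_9d1ffa_al.Hx
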